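import Pool.Agent.V5helper10.GK.Fin
import Pool.Agent.V5helper65.GK.BACK
import Pool.Agent.V5helper81.GK.BAS
import Pool.Agent.V5helper59.GK.K3T
import Pool.Agent.V5helper28.GK.TYP
import Pool.Agent.V5helper86.GK.SCAL
import Pool.Agent.V5helper82.GK.DRT
import Pool.Agent.V5helper82.GK.IRR

/-!
# Project GK: the final theorem
-/

open CategoryTheory AlgebraicGeometry

universe u

namespace Pool.Agent.V5helper10.GK

open Pool.Agent.H914 Pool.Agent.H914.VarClass Pool.Agent.H914.VarClass.Obj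
  Pool.Agent.H914.WeilCohomology Pool.Agent.Y121.AHS Pool.Agent.V5helper10.K3P
open Pool.Agent.Y133.Half (pw)
open Pool.Agent.Y133.Per (DeRham IsDRB)
open Pool.Agent.V5helper10.GKS (IsPeriodMatrix OnlyScalars PeriodAt HodgeAt)

variable {k : Type u} [Field k] {𝒱 : VarClass k} {ops : CycleOps 𝒱}

theorem gk (T : HodgeTheory ops) (D : DeRham T.W GKS.QA) (X : 𝒱.Obj) (hX : OfK3Type T X)
    (hE : OnlyScalars (T.pq X) (Tr T X)) (r : ℕ) (e : Fin r → T.W.H X)
    (P : Matrix (Fin r) (Fin r) ℂ) (hP : IsPeriodMatrix (D.dR X) (Tr T X) e P)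
    (hirr : GKS.ActsIrreducibly P) (hr : r ≠ 5) :
    -- 1
    (∀ n d c, IsDRB D (pw X n) d c → IsHodge T (pw X n) d c) ∧
    -- 2
    (∀ n d, HodgeAt T (pw X n) d → PeriodAt D (pw X n) d) ∧
    -- 3
    (∀ n d, d < r ∨ 2 * (n + 1) < d + r → PeriodAt D (pw X n) d) ∧
    -- 4
    ((∀ n d c, IsHodge T (pw X n) d c → IsDRB D (pw X n) d c) →
      (∀ n d, PeriodAt D (pw X n) d ↔ HodgeAt T (pw X n) d) ∧
      ((∀ n d, PeriodAt D (pw X n) d) ∨
        ∀ n d, PeriodAt D (pw X n) d ↔ (d < r ∨ 2 * (n + 1) < d + r))) :=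
  gk_final V5helper82.GK.t_DRT V5helper65.GK.t_BACK V5helper81.GK.t_BAS V5helper59.GK.t_K3T
    V5helper28.GK.t_TYP (V5helper86.GK.t_SCAL V5helper28.GK.t_TYP) V5helper82.GK.t_IRR
    T D X hX hE r e P hP hirr hr

end Pool.Agent.V5helper10.GK
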