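import Pool.Agent.V5helper10.GK.Stm
import Pool.Agent.V5helper10.DRB.All
import Pool.Agent.V5helper10.K3P.Final
import Pool.Agent.V5helper6.KSC.G8

/-!
# Project GK: assembly
-/

set_option linter.unusedSectionVars false

open CategoryTheory AlgebraicGeometry TensorProduct

universe u

namespace Pool.Agent.V5helper10.GK

open Module Matrix
open Pool.Agent.H914 Pool.Agent.H914.VarClass Pool.Agent.H914.VarClass.Obj
  Pool.Agent.H914.WeilCohomology
open Pool.Agent.Y133.Half Pool.Agent.Y121.AH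
open Pool.Agent.N996.BP Pool.Agent.N996.BP.Geo
open Pool.Agent.V5helper10.KSC
open Pool.Agent.N996.FP.Geo (lmap)
open Pool.Agent.W544.K3 (K3Type bil app cj ev)
open Pool.Agent.Y133.Per (DeRham IsDRB GPC tm twist twoPiI)

variable {k : Type u} [Field k] {𝒱 : VarClass k} {ops : CycleOps 𝒱}

/-- `End T(X) = ℚ`. -/
lemma finrank_one {T : HodgeTheory ops} {X : 𝒱.Obj} {Dv : T.W.H X} (hK : K3G T X Dv)
    (hS : ∀ g, EndHS T X g → ∃ c : T.W.K, ∀ x ∈ TrA T X, g x = c • x)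
    (h0 : ∃ x ∈ TrA T X, x ≠ 0) : finrank T.W.K (EndTrA T X) = 1 := by
  obtain ⟨ι, _, _, ⟨M⟩⟩ := KSC.All.h_dat T X Dv hK
  obtain ⟨w, hw⟩ := KSC.All.h_k3 T X Dv hK M
  have hPT := Pool.Agent.V5helper60.KSC.PT_HE hw
  have hπ : lmap M.e (Pool.Agent.V5helper60.KSC.PT M.tt) ∈ EndTrA T X :=
    (Pool.Agent.V5helper6.KSC.mem_EndTrA hK M _).2 ⟨_, hPT, rfl⟩
  -- the projector is the identity on the transcendental part
  have hPj : ∀ j ∈ M.tt, lmap M.e (Pool.Agent.V5helper60.KSC.PT M.tt) (M.e j) = M.e j := by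
    intro j hj
    apply M.e.repr.injective
    ext i
    rw [Pool.Agent.V5helper6.KSC.repr_lmap, Basis.repr_self, Finsupp.single_apply,
      Pool.Agent.V5helper60.KSC.PT, Matrix.diagonal_apply]
    by_cases hij : i = j
    · subst hij
      rw [if_pos rfl, if_pos hj, if_pos rfl, Rat.cast_one]
    · rw [if_neg hij, if_neg (Ne.symm hij), Rat.cast_zero]
  have hid : ∀ x ∈ TrA T X, lmap M.e (Pool.Agent.V5helper60.KSC.PT M.tt) x = x := by
    intro x hx
    have h2 := (Pool.Agent.V5helper6.KSC.mem_TrA hK M.hB x).1 hx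
    conv_lhs => rw [← M.e.sum_repr x]
    rw [map_sum]
    conv_rhs => rw [← M.e.sum_repr x]
    refine Finset.sum_congr rfl fun j _ => ?_
    rw [map_smul]
    by_cases hj : j ∈ M.tt
    · rw [hPj j hj]
    · rw [h2 j hj, zero_smul, zero_smul]
  have hne : (⟨_, hπ⟩ : EndTrA T X) ≠ 0 := fun h => by
    obtain ⟨x, hx, hx0⟩ := h0
    apply hx0
    have h2 : lmap M.e (Pool.Agent.V5helper60.KSC.PT M.tt) = 0 := congrArg Subtype.val h
    rw [← hid x hx, h2, LinearMap.zero_apply]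
  refine (finrank_eq_one_iff_of_nonzero' (K := T.W.K) (V := EndTrA T X)
    (⟨_, hπ⟩ : EndTrA T X) hne).2 ?_
  rintro ⟨g, hg⟩
  obtain ⟨y, hy, rfl⟩ := (Pool.Agent.V5helper6.KSC.mem_EndTrA hK M g).1 hg
  obtain ⟨c, hc⟩ := hS _ (Pool.Agent.V5helper6.KSC.cnd_lmap hK M hy).1
  refine ⟨c, Subtype.ext (M.e.ext fun j => ?_)⟩
  change (c • lmap M.e (Pool.Agent.V5helper60.KSC.PT M.tt)) (M.e j) = lmap M.e y (M.e j)
  rw [LinearMap.smul_apply]
  by_cases hj : j ∈ M.tt
  · rw [hPj j hj]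
    refine (hc _ ((Pool.Agent.V5helper6.KSC.mem_TrA hK M.hB _).2 fun i hi => ?_)).symm
    rw [Basis.repr_self, Finsupp.single_apply, if_neg]
    rintro rfl
    exact hi hj
  · have h1 : ∀ z ∈ HE M.H M.tt, lmap M.e z (M.e j) = 0 := by
      intro z hz
      apply M.e.repr.injective
      ext i
      rw [Pool.Agent.V5helper6.KSC.repr_lmap, hz.2 i j (Or.inr hj), map_zero, Finsupp.zero_apply,
        Rat.cast_zero]
    rw [h1 _ hPT, h1 _ hy, smul_zero]

/-- Rational combinations of classes of cycles are de Rham-Betti classes. -/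
lemma drb_of_span {W : WeilCohomology.{u, 0} ops} [Algebra W.K ℂ] {F : Subfield ℂ}
    (D : DeRham W F) {X : 𝒱.Obj} {j : ℕ} {c : W.H X} (hc : c ∈ spanCycles W X j) :
    IsDRB D X j c := by
  unfold spanCycles at hc
  induction hc using Submodule.span_induction with
  | mem c hc =>
    obtain ⟨p, hp, z, hz, rfl⟩ := hc
    have h1 : p = j := by exact_mod_cast hp
    subst h1
    exact Pool.Agent.Y133.Per.IsDRB.cl hz
  | zero => exact Pool.Agent.Y133.Per.IsDRB.zero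
  | add a b _ _ ha hb => exact ha.add hb
  | smul r a _ ha => exact ha.smul r

/-- **De Rham-Betti classes on the powers of `X` are Hodge classes.** -/
theorem drb_hodge (hDRT : S_DRT.{u}) (hBACK : S_BACK.{u}) (hBAS : S_BAS.{u}) (hK3T : S_K3T.{u})
    (hTYP : S_TYP.{u}) (hSCAL : S_SCAL.{u}) (hIRR : S_IRR) {T : HodgeTheory ops}
    (D : DeRham T.W QA) {X : 𝒱.Obj} {Dv : T.W.H X} (hK : K3G T X Dv)
    (hS : ∀ g, EndHS T X g → ∃ c : T.W.K, ∀ x ∈ TrA T X, g x = c • x)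
    {r : ℕ} {e : Fin r → T.W.H X}
    {P : Matrix (Fin r) (Fin r) ℂ} (hind : LinearIndependent T.W.K e)
    (hspan : Submodule.span T.W.K (Set.range e) = TrA T X) (hdet : P.det ≠ 0)
    (hcol : ∀ l, ∑ i, tm (twoPiI * P i l) (e i) ∈ D.dR X) (hirr : ActsIrreducibly P)
    (h5 : r ≠ 5) (n d : ℕ) (c : T.W.H (pw X n)) (hc : IsDRB D (pw X n) d c) :
    IsHodge T (pw X n) d c := by
  obtain ⟨Y, hYD, hYB, hYω⟩ := hK3T T D X Dv hK e hind hspan P hdet hcol
  obtain ⟨s, f, cod, hfe, hfH, hfA, hfo⟩ := hBAS T X Dv hK e hind hspan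
  have hfT : ∀ a, f (Sum.inr a) ∈ TrA T X := by
    intro a
    rw [hfe, ← hspan]
    exact Submodule.subset_span ⟨a, rfl⟩
  have hfo' : ∀ i a, T.W.tr X (f (Sum.inl i) * f (Sum.inr a)) = 0 := by
    intro i a
    rw [hfe]
    exact hfo i a
  have hYB' : ∀ i j, ((Y.B i j : ℚ) : T.W.K) = T.W.tr X (f (Sum.inr i) * f (Sum.inr j)) := by
    intro i j
    rw [hfe, hfe]
    exact hYB i j
  have hYω' : ∑ i, (Y.ω i) ⊗ₜ[T.W.K] (f (Sum.inr i)) ∈ Fx T X (2, 0) := by
    simp only [hfe]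
    exact hYω
  have hr0 : 0 < r := by
    rcases Nat.eq_zero_or_pos r with h | h
    · subst h
      have h2 := Y.pos
      simp [Pool.Agent.W544.K3.bil] at h2
    · exact h
  have hQ := hSCAL T X Dv hK f cod hfH hfT hfo' Y hYB' hYω' (fun g hg1 _ _ => hS g hg1)
  obtain ⟨hR, hE⟩ := hIRR Y hr0 (by rw [hYD]; exact hirr)
  -- the form
  choose q hq using T.rat
  obtain ⟨t, ht⟩ : ∃ t : (Fin (n + 1) → Fin s ⊕ Fin r) → ℚ,
      ∀ I, ((t I : ℚ) : T.W.K) = T.W.tr (pw X n) (c * wb f n I) :=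
    ⟨fun I => q (T.W.tr (pw X n) (c * wb f n I)), fun I => hq _⟩
  have ht' : ∀ I, algebraMap T.W.K ℂ (T.W.tr (pw X n) (c * wb f n I)) = (t I : ℂ) := by
    intro I
    rw [← ht, map_ratCast]
  have hdR : ∀ l, ∑ i, tm (twoPiI ^ (Sum.elim cod (fun _ => 1) : Fin s ⊕ Fin r → ℕ) i *
      Y.D' s i l) (f i) ∈ D.dR X := by
    intro l
    rw [Fintype.sum_sum_type]
    rcases l with l | l
    · have e1 : ∑ a, tm (twoPiI ^ (Sum.elim cod (fun _ => 1) : Fin s ⊕ Fin r → ℕ) (Sum.inr a) *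
          Y.D' s (Sum.inr a) (Sum.inl l)) (f (Sum.inr a)) =
          (0 : Pool.Agent.Y133.Per.Base T.W.K (T.W.H X)) := by
        refine Finset.sum_eq_zero fun a _ => ?_
        rw [K3Type.D', Matrix.fromBlocks_apply₂₁, Matrix.zero_apply, mul_zero]
        exact TensorProduct.zero_tmul _ _
      have e2 : ∑ a, tm (twoPiI ^ (Sum.elim cod (fun _ => 1) : Fin s ⊕ Fin r → ℕ) (Sum.inl a) *
          Y.D' s (Sum.inl a) (Sum.inl l)) (f (Sum.inl a)) =
          (twist (cod l) (f (Sum.inl l)) : Pool.Agent.Y133.Per.Base T.W.K (T.W.H X)) := by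
        rw [Finset.sum_eq_single l]
        · rw [K3Type.D', Matrix.fromBlocks_apply₁₁, Matrix.one_apply_eq, mul_one]
          rfl
        · intro a _ ha
          rw [K3Type.D', Matrix.fromBlocks_apply₁₁, Matrix.one_apply_ne ha, mul_zero]
          exact TensorProduct.zero_tmul _ _
        · intro h
          exact absurd (Finset.mem_univ _) h
      rw [e1, e2, add_zero]
      exact (drb_of_span D (hfA l)).2
    · have e1 : ∑ a, tm (twoPiI ^ (Sum.elim cod (fun _ => 1) : Fin s ⊕ Fin r → ℕ) (Sum.inl a) *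
          Y.D' s (Sum.inl a) (Sum.inr l)) (f (Sum.inl a)) =
          (0 : Pool.Agent.Y133.Per.Base T.W.K (T.W.H X)) := by
        refine Finset.sum_eq_zero fun a _ => ?_
        rw [K3Type.D', Matrix.fromBlocks_apply₁₂, Matrix.zero_apply, mul_zero]
        exact TensorProduct.zero_tmul _ _
      have e2 : ∑ a, tm (twoPiI ^ (Sum.elim cod (fun _ => 1) : Fin s ⊕ Fin r → ℕ) (Sum.inr a) *
          Y.D' s (Sum.inr a) (Sum.inr l)) (f (Sum.inr a)) =
          (∑ a, tm (twoPiI * P a l) (e a) : Pool.Agent.Y133.Per.Base T.W.K (T.W.H X)) := by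
        refine Finset.sum_congr rfl fun a _ => ?_
        rw [K3Type.D', Matrix.fromBlocks_apply₂₂, hYD, hfe]
        change (tm (twoPiI ^ 1 * P a l) (e a) : Pool.Agent.Y133.Per.Base T.W.K (T.W.H X)) = _
        rw [pow_one]
      rw [e1, e2, zero_add]
      exact hcol l
  have hfd : ∀ i, f i ∈ T.W.gr X (2 * (Sum.elim cod (fun _ => 1) : Fin s ⊕ Fin r → ℕ) i) := by
    rintro (i | i)
    · exact (hfH i).1
    · exact (hfT i).1
  have htD : Y.IsDRB' t := by
    intro J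
    have h2 := hDRT T.W QA D X f _ hfd (Y.D' s) hdR n d c hc J
    simp only [ht'] at h2
    exact mem_algebraicClosure_iff.1 h2
  have htH : Y.IsHodge' t := V5helper10.DRB.powers_hodge Y hR hE
    (V5helper10.DRB.deligne_of_scalar Y hQ) (V5helper10.DRB.realMult_of_scalar Y hQ)
    (V5helper10.DRB.finrank_of_scalar Y hQ h5) s (n + 1) t htD
  refine hBACK T X Dv hK f n d c hc.1 ?_
  intro p q' v hv hpq
  simp only [ht']
  -- the types
  have hty : ∀ l, ∃ (a : ℂ) (v' : Fin s ⊕ Fin r → ℂ) (p' : ℤ), v l = a • v' ∧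
      Y.HType' v' p' ∧ (a = 0 ∨ p l - q' l = 2 * p') := by
    intro l
    rcases hTYP T X Dv hK f cod hfH hfT hfo' Y hYB' hYω' (p l) (q' l) (v l) (hv l) with
      h | ⟨h2, h3, a, ha⟩ | ⟨h2, h3, a, ha⟩ | ⟨h2, h3, h4⟩
    · refine ⟨0, 0, 0, by rw [h, smul_zero], Or.inr (Or.inr ⟨rfl, ?_, ?_⟩), Or.inl rfl⟩
      · simp [Pool.Agent.W544.K3.bil]
      · simp [Pool.Agent.W544.K3.bil]
    · exact ⟨a, _, 1, ha, Or.inl ⟨rfl, rfl⟩, Or.inr (by omega)⟩
    · exact ⟨a, _, -1, ha, Or.inr (Or.inl ⟨rfl, rfl⟩), Or.inr (by omega)⟩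
    · exact ⟨1, v l, 0, (one_smul _ _).symm, Or.inr (Or.inr ⟨rfl, h3, h4⟩), Or.inr (by omega)⟩
  choose a v' p' hva hv' hp' using hty
  have h6 : ∑ I : Fin (n + 1) → Fin s ⊕ Fin r, (t I : ℂ) * ∏ l, v l (I l) =
      (∏ l, a l) * Pool.Agent.W544.K3.ev t v' := by
    rw [Pool.Agent.W544.K3.ev, Finset.mul_sum]
    refine Finset.sum_congr rfl fun I _ => ?_
    have h7 : ∏ l, v l (I l) = (∏ l, a l) * ∏ l, v' l (I l) := by
      rw [← Finset.prod_mul_distrib]
      refine Finset.prod_congr rfl fun l _ => ?_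
      rw [hva l, Pi.smul_apply, smul_eq_mul]
    rw [h7]
    ring
  rw [h6]
  by_cases ha : ∃ l, a l = 0
  · obtain ⟨l, hl⟩ := ha
    rw [Finset.prod_eq_zero (Finset.mem_univ l) hl, zero_mul]
  · push Not at ha
    have h7 : ∑ l, p' l ≠ 0 := by
      intro h8
      apply hpq
      have h9 : ∑ l, p l - ∑ l, q' l = 2 * ∑ l, p' l := by
        rw [← Finset.sum_sub_distrib, Finset.mul_sum]
        exact Finset.sum_congr rfl fun l _ => (hp' l).resolve_left (ha l)
      rw [h8, mul_zero] at h9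
      exact sub_eq_zero.1 h9
    rw [htH v' p' hv' h7, mul_zero]

end Pool.Agent.V5helper10.GK
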