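import Pool.Agent.V5helper10.GK.Fin4
import Pool.Agent.V5helper69.GK.SOI
import Pool.Agent.V5helper18.GK.HGT
import Pool.Agent.V5helper82.GK.RTD
import Pool.Agent.V5helper4.GK.ALG
import Pool.Agent.V5helper7.GK.IRS
import Pool.Agent.V5helper3.GK.CLS

/-!
# Project GK, part 2: all together
-/

open CategoryTheory AlgebraicGeometry

universe u

namespace Pool.Agent.V5helper10.GK

theorem g_HGT : S_HGT.{u} := Pool.Agent.V5helper18.GK.t_HGT Pool.Agent.V5helper69.GK.t_SOI
theorem g_RTD : S_RTD.{u} := Pool.Agent.V5helper82.GK.t_RTD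
theorem g_ALG : S_ALG := Pool.Agent.V5helper4.GK.t_ALG
theorem g_IRS : S_IRS := Pool.Agent.V5helper7.GK.t_IRS
theorem g_CLS : S_CLS.{u} := Pool.Agent.V5helper3.GK.t_CLS

end Pool.Agent.V5helper10.GK
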