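import Pool.Agent.V5helper10.K3P.Defs
import Pool.Agent.Y133.Half.PerDefs

/-!
# Period matrices of K3 surfaces: definitions

In the intended use `T` is the cohomology `X ↦ H(X, ℚ)` of the smooth projective varieties over the
field of algebraic numbers (with respect to an embedding into `ℂ`) with its Hodge decomposition and
`D.dR X` is the algebraic de Rham cohomology of `X`.
-/

open CategoryTheory AlgebraicGeometry

universe u

namespace Pool.Agent.V5helper10.GKS

open Matrix
open Pool.Agent.H914 Pool.Agent.H914.VarClass Pool.Agent.H914.VarClass.Obj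
  Pool.Agent.H914.WeilCohomology
open Pool.Agent.Y121.AHS
open Pool.Agent.N996.FP (IsEndo)
open Pool.Agent.Y133.Per (DeRham IsDRB Base tm twoPiI)

/-- The field of algebraic numbers. -/
noncomputable abbrev QA : Subfield ℂ := (algebraicClosure ℚ ℂ).toSubfield

/-- The rational `m`-linear form `t` is a de Rham-Betti class: its values on the de Rham vectors, the
columns of the period matrix `P`, are algebraic. -/
def IsPeriodForm {r : ℕ} (P : Matrix (Fin r) (Fin r) ℂ) {m : ℕ} (t : (Fin m → Fin r) → ℚ) : Prop :=
  ∀ J : Fin m → Fin r, IsAlgebraic ℚ (∑ I : Fin m → Fin r, (t I : ℂ) * ∏ j, P (I j) (J j))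

/-- The Lie algebra of the de Rham-Betti group: the rational matrices which kill all de Rham-Betti
classes on all tensor powers. -/
def lie {r : ℕ} (P : Matrix (Fin r) (Fin r) ℂ) : Set (Matrix (Fin r) (Fin r) ℚ) :=
  {x | ∀ (m : ℕ) (t : (Fin m → Fin r) → ℚ), IsPeriodForm P t →
    ∀ I : Fin m → Fin r, ∑ j, ∑ l, x l (I j) * t (Function.update I j l) = 0}

/-- The Lie algebra acts irreducibly on the space of complex vectors. -/
def ActsIrreducibly {r : ℕ} (P : Matrix (Fin r) (Fin r) ℂ) : Prop :=
  ∀ M : Submodule ℂ (Fin r → ℂ), (∀ x ∈ lie P, ∀ v ∈ M, (fun i => ∑ j, (x i j : ℂ) * v j) ∈ M) →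
    M = ⊥ ∨ M = ⊤

section

variable {K A : Type} [Field K] [Algebra K ℂ] [Ring A] [Algebra K A]

/-- `P` is a period matrix of the part `N` of `H^2(X)`, for the basis `e` of `N`: the columns of
`(2 π i) P` are the coordinates of a basis of the de Rham classes (the elements of `S`). -/
structure IsPeriodMatrix (S : Set (Base K A)) (N : Submodule K A) {r : ℕ} (e : Fin r → A)
    (P : Matrix (Fin r) (Fin r) ℂ) : Prop where
  indep : LinearIndependent K e
  span : Submodule.span K (Set.range e) = N
  det : P.det ≠ 0
  col : ∀ l, ∑ i, tm (twoPiI * P i l) (e i) ∈ S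

/-- The endomorphisms of the Hodge structure act as scalars on `N`. -/
def OnlyScalars (pq : ℤ → ℤ → Submodule ℂ (Ext K ℂ A)) (N : Submodule K A) : Prop :=
  ∀ f : A →ₗ[K] A, IsEndo pq f → ∃ c : K, ∀ x ∈ N, f x = c • x

end

variable {k : Type u} [Field k] {𝒱 : VarClass k} {ops : CycleOps 𝒱} {T : HodgeTheory ops}

/-- The Grothendieck period conjecture for `Y` in codimension `d`: the de Rham-Betti classes are the
classes of algebraic cycles (with rational coefficients). -/
def PeriodAt (D : DeRham T.W QA) (Y : 𝒱.Obj) (d : ℕ) : Prop :=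
  ∀ c, IsDRB D Y d c → c ∈ algClasses T.W Y d

variable (T)

/-- The Hodge conjecture for `Y` in codimension `d`: the Hodge classes are the classes of algebraic
cycles (with rational coefficients). -/
def HodgeAt (Y : 𝒱.Obj) (d : ℕ) : Prop := ∀ c, IsHodge T Y d c → c ∈ algClasses T.W Y d

end Pool.Agent.V5helper10.GKS
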