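import Pool.Agent.N996.BP.Ext2
import Pool.Agent.Y133.Half.PerDefs
import Pool.Agent.Y121.AHS.Defs
import Mathlib.Algebra.Algebra.Bilinear

/-!
# Period matrices of K3 surfaces: the definitions of the statement

`K` is the field of the rational numbers, `A`, `B` and `C` are the cohomology rings of varieties, `t` is
the trace (the integral), `Ext K ℂ A` is `ℂ ⊗ A`, `pq p q` are its subspaces `H^(p,q)`, `extConj` is the
complex conjugation, `extEm` the embedding of `A`, `extMap` the extension of a linear map, and `extBil`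
the extension of a bilinear form to complex coefficients. In the intended use `T` is the cohomology
`X ↦ H(X, ℚ)` of the smooth projective varieties over the field of algebraic numbers (with respect to
an embedding into `ℂ`) with its Hodge decomposition and `D.dR X` is the algebraic de Rham cohomology of
`X`; `algClasses T.W X j` is the set of the classes of the algebraic cycles of codimension `j` on `X`, with
rational coefficients.
-/

open CategoryTheory AlgebraicGeometry

universe u

namespace Pool.Agent.V5helper10.GKU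

open Matrix
open Pool.Agent.H914 Pool.Agent.H914.VarClass Pool.Agent.H914.VarClass.Obj
  Pool.Agent.H914.WeilCohomology
open Pool.Agent.Y121.AHS Pool.Agent.N996.BP
open Pool.Agent.Y133.Per (DeRham IsDRB Base tm twoPiI)

/-- The field of algebraic numbers. -/
noncomputable abbrev QA : Subfield ℂ := (algebraicClosure ℚ ℂ).toSubfield

/-- The rational `m`-linear form `t` is a de Rham-Betti class: its values on the de Rham vectors, the
columns of the period matrix `P`, are algebraic. -/
def IsPeriodForm {r : ℕ} (P : Matrix (Fin r) (Fin r) ℂ) {m : ℕ} (t : (Fin m → Fin r) → ℚ) : Prop :=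
  ∀ J : Fin m → Fin r, IsAlgebraic ℚ (∑ I : Fin m → Fin r, (t I : ℂ) * ∏ j, P (I j) (J j))

/-- The Lie algebra of the de Rham-Betti group: the rational matrices which kill all de Rham-Betti
classes on all tensor powers. -/
def lie {r : ℕ} (P : Matrix (Fin r) (Fin r) ℂ) : Set (Matrix (Fin r) (Fin r) ℚ) :=
  {x | ∀ (m : ℕ) (t : (Fin m → Fin r) → ℚ), IsPeriodForm P t →
    ∀ I : Fin m → Fin r, ∑ j, ∑ l, x l (I j) * t (Function.update I j l) = 0}

/-- The Lie algebra acts irreducibly on the space of complex vectors. -/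
def ActsIrreducibly {r : ℕ} (P : Matrix (Fin r) (Fin r) ℂ) : Prop :=
  ∀ M : Submodule ℂ (Fin r → ℂ), (∀ x ∈ lie P, ∀ v ∈ M, (fun i => ∑ j, (x i j : ℂ) * v j) ∈ M) →
    M = ⊥ ∨ M = ⊤

/-- The complex number `z` is a positive real number. -/
def IsPos (z : ℂ) : Prop := ∃ r : ℝ, 0 < r ∧ z = r

section

variable {M : Type} [AddCommGroup M] [Module ℂ M]

/-- `P p q` holds whenever the space `pq p q` is not zero. -/
def TypesIn (pq : ℤ → ℤ → Submodule ℂ M) (P : ℤ → ℤ → Prop) : Prop :=
  ∀ p q : ℤ, ∀ x ∈ pq p q, x ≠ 0 → P p q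

/-- The map `c` exchanges the spaces `pq p q` and `pq q p`. -/
def Exchanges (pq : ℤ → ℤ → Submodule ℂ M) (c : M → M) : Prop :=
  ∀ p q : ℤ, ∀ x ∈ pq p q, c x ∈ pq q p

/-- The map `g` preserves the spaces `pq p q`. -/
def Preserves (pq : ℤ → ℤ → Submodule ℂ M) (g : M → M) : Prop :=
  ∀ p q : ℤ, ∀ x ∈ pq p q, g x ∈ pq p q

/-- `h x` is positive for all nonzero `x` in `V`. -/
def PosOn (V : Submodule ℂ M) (h : M → ℂ) : Prop := ∀ x ∈ V, x ≠ 0 → IsPos (h x)

/-- `h x` is positive for all nonzero `x` in `V` with `l x = 0`. -/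
def PosOnKer (V : Submodule ℂ M) (l h : M → ℂ) : Prop := ∀ x ∈ V, x ≠ 0 → l x = 0 → IsPos (h x)

/-- The dimension of `V`. -/
noncomputable def dimC (V : Submodule ℂ M) : ℕ := Module.finrank ℂ V

end

section

variable {K A B C : Type} [Field K] [Ring A] [Algebra K A] [Ring B] [Algebra K B] [Ring C]
  [Algebra K C]

/-- The subspace is zero. -/
def Vanishes (V : Submodule K A) : Prop := ∀ x ∈ V, x = 0

/-- The subspace of the elements `v` of `V` such that `t (v c) = 0` for all `c` with the property
`P`. -/
def orthIn (t : A →ₗ[K] K) (V : Submodule K A) (P : A → Prop) : Submodule K A :=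
  Submodule.span K {v | v ∈ V ∧ ∀ c, P c → t (v * c) = 0}

/-- The bilinear form `(x, y) ↦ t (a x y)`. -/
noncomputable def form (t : A →ₗ[K] K) (a : A) : Bil K A :=
  ((LinearMap.mul K A).compr₂ t) ∘ₗ LinearMap.mulLeft K a

/-- `s(c p(v)) x ≠ 0` for some `v` in `V` and some `x` in `W`. -/
def ActsNonzero (p : A →ₐ[K] C) (s : C →ₗ[K] B) (c : C) (V : Submodule K A)
    (W : Submodule K B) : Prop :=
  ∃ v ∈ V, ∃ x ∈ W, s (c * p v) * x ≠ 0

variable [Algebra K ℂ]

/-- `P` is a period matrix of the part `N` of `H^2(X)`, for the basis `e` of `N`: the columns of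
`(2 π i) P` are the coordinates of a basis of the de Rham classes (the elements of `S`). -/
structure IsPeriodMatrix (S : Set (Base K A)) (N : Submodule K A) {r : ℕ} (e : Fin r → A)
    (P : Matrix (Fin r) (Fin r) ℂ) : Prop where
  indep : LinearIndependent K e
  span : Submodule.span K (Set.range e) = N
  det : P.det ≠ 0
  col : ∀ l, ∑ i, tm (twoPiI * P i l) (e i) ∈ S

/-- The endomorphisms of the Hodge structure act as scalars on `N`. -/
def OnlyScalars (pq : ℤ → ℤ → Submodule ℂ (Ext K ℂ A)) (N : Submodule K A) : Prop :=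
  ∀ f : A →ₗ[K] A, Preserves pq (extMap K ℂ f) → ∃ c : K, ∀ x ∈ N, f x = c • x

/-- The hermitian form `t (a x x̄)`. -/
noncomputable def herm (hr : IsRat K) (t : A →ₗ[K] K) (a : A) (x : Ext K ℂ A) : ℂ :=
  extBil (form t a) x (extConj hr x)

/-- The Hodge decomposition of the cohomology of a K3 surface, with the class `D` of a divisor: only
types `(p, q)` with `0 ≤ p, q ≤ 2` occur, the complex conjugation exchanges the types `(p, q)` and
`(q, p)`, the space of type `(2, 0)` has dimension one, `D² > 0`, the hermitian form `t(x x̄)` is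
negative definite on the classes `x` of type `(1, 1)` orthogonal to `D` (Hodge index theorem) and
positive definite on the classes of type `(2, 0)`. -/
structure K3Types (hr : IsRat K) (t : A →ₗ[K] K) (pq : ℤ → ℤ → Submodule ℂ (Ext K ℂ A)) (D : A) :
    Prop where
  range : TypesIn pq fun p q => 0 ≤ p ∧ p ≤ 2 ∧ 0 ≤ q ∧ q ≤ 2
  conj : Exchanges pq (extConj hr)
  one : dimC (pq 2 0) = 1
  big : IsPos (algebraMap K ℂ (t (D * D)))
  neg : PosOnKer (pq 1 1) (fun x => extBil (form t 1) x (extEm K ℂ D)) fun x => -herm hr t 1 x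
  pos : PosOn (pq 2 0) (herm hr t 1)

/-- The Hodge decomposition of `H¹`, with a class `a`: only the types `(1, 0)` and `(0, 1)` occur in
`H¹`, the complex conjugation exchanges the types `(p, q)` and `(q, p)`, and `i t(a x x̄)` is a positive
real number for all nonzero `x` of type `(1, 0)` (the Hodge-Riemann relations, if `a` is the power
with exponent `dim - 1` of the class of a hyperplane section). -/
structure OneTypes (hr : IsRat K) (t : A →ₗ[K] K) (pq : ℤ → ℤ → Submodule ℂ (Ext K ℂ A)) (a : A) :
    Prop where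
  types : TypesIn pq fun p q => p + q = 1 → p = 1 ∧ q = 0 ∨ p = 0 ∧ q = 1
  conj : Exchanges pq (extConj hr)
  pos : PosOn (pq 1 0) fun x => Complex.I * herm hr t a x

end

variable {k : Type u} [Field k] {𝒱 : VarClass k} {ops : CycleOps 𝒱} (T : HodgeTheory ops)

/-- The Hodge conjecture for `Y` in codimension `d`: the Hodge classes are the classes of algebraic
cycles (with rational coefficients). (For `d = 1` this is Lefschetz' theorem on
`(1,1)`-classes.) -/
def HodgeIn (Y : 𝒱.Obj) (d : ℕ) : Prop := ∀ c, IsHodge T Y d c → c ∈ algClasses T.W Y d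

/-- The cohomology of `X` has the properties of the cohomology of a projective K3 surface:
`X` is a surface with `H^1(X) = 0`, Lefschetz' theorem on `(1,1)`-classes holds, and for some
divisor the Hodge decomposition has the properties `K3Types`. -/
structure IsK3 (X : 𝒱.Obj) : Prop where
  dim : X.dim = 2
  odd : Vanishes (T.W.gr X 1)
  lefschetz : HodgeIn T X 1
  types : ∃ D ∈ algClasses T.W X 1, K3Types T.rat (T.W.tr X) (T.pq X) D

/-- The transcendental part `T(X)` of `H^2(X)`: the classes orthogonal to all Hodge classes of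
degree `2`. -/
def Trans (X : 𝒱.Obj) : Submodule T.W.K (T.W.H X) :=
  orthIn (T.W.tr X) (T.W.gr X 2) (IsHodge T X 1)

/-- Properties of all smooth projective varieties `Y` of positive dimension: Lefschetz' theorem on
`(1, 1)`-classes holds for `Y × Y`, and for some algebraic class `y` of codimension `dim Y - 1` the
Hodge decomposition has the properties `OneTypes`. -/
structure IsGood (Y : 𝒱.Obj) : Prop where
  dim : 1 ≤ Y.dim
  lefschetz : HodgeIn T (Y.prod Y) 1
  types : ∃ y ∈ algClasses T.W Y (Y.dim - 1), OneTypes T.rat (T.W.tr Y) (T.pq Y) y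

/-- The correspondence `v ↦ c(v) = pr₂_* (c · pr₁^* v)` maps `H²(X)` to `H^(2 dim Y - 2)(Y)` if `c` is
algebraic of codimension `dim Y`; the product of `c(v)` and of `x` is not zero for some `v` in `T(X)`
and some `x` in `H¹(Y)`. -/
def ActsOnForms (X Y : 𝒱.Obj) (c : T.W.H (X.prod Y)) : Prop :=
  ActsNonzero (T.W.map (fst X Y)) (T.W.push (snd X Y)) c (Trans T X) (T.W.gr Y 1)

variable {T}

/-- The Grothendieck period conjecture for `Y` in codimension `d`: the de Rham-Betti classes are the
classes of algebraic cycles (with rational coefficients). -/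
def PeriodAt (D : DeRham T.W QA) (Y : 𝒱.Obj) (d : ℕ) : Prop :=
  ∀ c, IsDRB D Y d c → c ∈ algClasses T.W Y d

end Pool.Agent.V5helper10.GKU
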