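import Pool.Agent.V5helper10.GK.Main
import Pool.Agent.V5helper10.GK.Defs

/-!
# Project GK: the final theorem from the statements
-/

set_option linter.unusedSectionVars false

open CategoryTheory AlgebraicGeometry TensorProduct

universe u

namespace Pool.Agent.V5helper10.GK

open Module Matrix
open Pool.Agent.H914 Pool.Agent.H914.VarClass Pool.Agent.H914.VarClass.Obj
  Pool.Agent.H914.WeilCohomology
open Pool.Agent.Y121.AHS Pool.Agent.V5helper10.K3P
open Pool.Agent.Y133.Half (pw)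
open Pool.Agent.Y133.Per (DeRham IsDRB GPC)
open Pool.Agent.V5helper10.GKS (IsPeriodMatrix OnlyScalars PeriodAt HodgeAt)
open Pool.Agent.N996.FP (HodgeConjecture)

variable {k : Type u} [Field k] {𝒱 : VarClass k} {ops : CycleOps 𝒱} {T : HodgeTheory ops}
  {X : 𝒱.Obj}

/-- The endomorphisms of `T(X)`. -/
theorem dim_end (hX : OfK3Type T X) (hE : OnlyScalars (T.pq X) (Tr T X))
    (h0 : 0 < dimSub (Tr T X)) : dimEndTr T X = 1 := by
  obtain ⟨Dv, hD⟩ := hX.old.toG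
  obtain ⟨ι, _, _, ⟨M⟩⟩ := KSC.All.h_dat (toH T) X Dv hD
  have h3 := KSC.All.h_end (toH T) X Dv hD M
  rw [dimEndTr_eq]
  rw [dimTr_eq] at h0
  refine (show finrank T.W.K (KSC.EndTr T X) = finrank (toH T).W.K (KSC.EndTrA (toH T) X) from
    rfl).trans (finrank_one hD (fun g hg => ?_) ?_)
  · obtain ⟨c, hc⟩ := hE g hg
    rw [tr_eq] at hc
    exact ⟨c, hc⟩
  · by_contra hcon
    push Not at hcon
    have h4 : (KSC.Tr T X : Submodule T.W.K (T.W.H X)) = ⊥ :=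
      (Submodule.eq_bot_iff _).2 fun x hx => hcon x hx
    rw [h4, finrank_bot] at h0
    exact lt_irrefl _ h0

/-- The Hodge conjecture for the powers of a K3 surface with `End T(X) = ℚ`. -/
theorem hodge_part (hX : OfK3Type T X) (hE : OnlyScalars (T.pq X) (Tr T X)) {r : ℕ}
    (hr : dimSub (Tr T X) = r) :
    (∀ n d, d < r ∨ 2 * (n + 1) < d + r → K3P.HodgeIn T (pw X n) d) ∧
    ((∀ n d, K3P.HodgeIn T (pw X n) d) ∨
      ∀ n d, K3P.HodgeIn T (pw X n) d ↔ (d < r ∨ 2 * (n + 1) < d + r)) := by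
  obtain ⟨h0, m, hm, h1, h2, -, -⟩ := K3P.final hX
  have hE' := dim_end hX hE h0
  have hmr : m = r := by rw [← hr, ← hm, hE', mul_one]
  subst hmr
  rcases h1 with h1 | h1 | h1
  · exact ⟨fun n d _ => h1 n d, Or.inl h1⟩
  · exact ⟨fun n d h => (h1 n d).2 h, Or.inr h1⟩
  · exfalso
    have h3 := h2 hE'
    have h4 : K3P.HodgeIn T (pw X 1) 2 := fun c hc => h3 2 c hc
    rcases (h1 1 2).1 h4 with h5 | h5 <;> omega

/-- The final theorem. -/
theorem gk_final (hDRT : S_DRT.{u}) (hBACK : S_BACK.{u}) (hBAS : S_BAS.{u}) (hK3T : S_K3T.{u})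
    (hTYP : S_TYP.{u}) (hSCAL : S_SCAL.{u}) (hIRR : S_IRR) (T : HodgeTheory ops)
    (D : DeRham T.W GKS.QA) (X : 𝒱.Obj) (hX : OfK3Type T X)
    (hE : OnlyScalars (T.pq X) (Tr T X)) (r : ℕ) (e : Fin r → T.W.H X)
    (P : Matrix (Fin r) (Fin r) ℂ) (hP : IsPeriodMatrix (D.dR X) (Tr T X) e P)
    (hirr : GKS.ActsIrreducibly P) (hr : r ≠ 5) :
    -- 1
    (∀ n d c, IsDRB D (pw X n) d c → IsHodge T (pw X n) d c) ∧
    -- 2
    (∀ n d, HodgeAt T (pw X n) d → PeriodAt D (pw X n) d) ∧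
    -- 3
    (∀ n d, d < r ∨ 2 * (n + 1) < d + r → PeriodAt D (pw X n) d) ∧
    -- 4
    ((∀ n d c, IsHodge T (pw X n) d c → IsDRB D (pw X n) d c) →
      (∀ n d, PeriodAt D (pw X n) d ↔ HodgeAt T (pw X n) d) ∧
      ((∀ n d, PeriodAt D (pw X n) d) ∨
        ∀ n d, PeriodAt D (pw X n) d ↔ (d < r ∨ 2 * (n + 1) < d + r))) := by
  have h1 : ∀ n d c, IsDRB D (pw X n) d c → IsHodge T (pw X n) d c := by
    intro n d c hc
    obtain ⟨Dv, hD⟩ := hX.old.toG
    refine drb_hodge hDRT hBACK hBAS hK3T hTYP hSCAL hIRR (T := toH T) D hD (fun g hg => ?_)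
      hP.indep (hP.span.trans tr_eq) hP.det hP.col hirr hr n d c hc
    obtain ⟨c, hc⟩ := hE g hg
    rw [tr_eq] at hc
    exact ⟨c, hc⟩
  have hdim : dimSub (Tr T X) = r := by
    have h2 := finrank_span_eq_card hP.indep
    rw [hP.span, Fintype.card_fin] at h2
    exact h2
  obtain ⟨h2, h3⟩ := hodge_part hX hE hdim
  have h4 : ∀ n d, K3P.HodgeIn T (pw X n) d → PeriodAt D (pw X n) d := fun n d h c hc =>
    h c (h1 n d c hc)
  refine ⟨h1, h4, fun n d h => h4 n d (h2 n d h), fun hA => ?_⟩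
  have h5 : ∀ n d, PeriodAt D (pw X n) d ↔ K3P.HodgeIn T (pw X n) d := fun n d =>
    ⟨fun h c hc => h c (hA n d c hc), h4 n d⟩
  refine ⟨fun n d => (h5 n d).trans Iff.rfl, ?_⟩
  rcases h3 with h3 | h3
  · exact Or.inl fun n d => (h5 n d).2 (h3 n d)
  · exact Or.inr fun n d => (h5 n d).trans (h3 n d)

end Pool.Agent.V5helper10.GK
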