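import Pool.Agent.V5helper10.GK.Main2

/-!
# Project GK, part 2: the final theorem from the statements
-/

set_option linter.unusedSectionVars false

open CategoryTheory AlgebraicGeometry TensorProduct

universe u

namespace Pool.Agent.V5helper10.GK

open Module Matrix
open Pool.Agent.H914 Pool.Agent.H914.VarClass Pool.Agent.H914.VarClass.Obj
  Pool.Agent.H914.WeilCohomology
open Pool.Agent.Y121.AHS Pool.Agent.V5helper10.K3P
open Pool.Agent.Y133.Half (pw)
open Pool.Agent.Y133.Per (DeRham IsDRB GPC)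
open Pool.Agent.V5helper10.GKS (IsPeriodMatrix OnlyScalars PeriodAt HodgeAt)
open Pool.Agent.N996.FP (HodgeConjecture)

variable {k : Type u} [Field k] {𝒱 : VarClass k} {ops : CycleOps 𝒱}

theorem gk2_final (hHGT : S_HGT.{u}) (hRTD : S_RTD.{u}) (hALG : S_ALG) (hIRS : S_IRS)
    (hCLS : S_CLS.{u}) (T : HodgeTheory ops)
    (D : DeRham T.W GKS.QA) (X : 𝒱.Obj) (hX : OfK3Type T X)
    (hE : OnlyScalars (T.pq X) (Tr T X)) (r : ℕ) (e : Fin r → T.W.H X)
    (P : Matrix (Fin r) (Fin r) ℂ) (hP : IsPeriodMatrix (D.dR X) (Tr T X) e P) :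
    -- 1
    (∀ n d c, IsHodge T (pw X n) d c → IsDRB D (pw X n) d c) ∧
    -- 2
    (∀ n d, ¬(d < r ∨ 2 * (n + 1) < d + r) → PeriodAt D (pw X n) d →
      ∀ n d, HodgeAt T (pw X n) d) ∧
    (r ≠ 5 →
      -- 3
      ((∀ n d c, IsDRB D (pw X n) d c → IsHodge T (pw X n) d c) ↔ GKS.ActsIrreducibly P) ∧
      -- 4
      (GKS.ActsIrreducibly P → (∀ n d, PeriodAt D (pw X n) d ↔ HodgeAt T (pw X n) d) ∧
        (∀ n d, d < r ∨ 2 * (n + 1) < d + r → PeriodAt D (pw X n) d) ∧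
        ((∀ n d, PeriodAt D (pw X n) d) ∨
          ∀ n d, PeriodAt D (pw X n) d ↔ (d < r ∨ 2 * (n + 1) < d + r)))) := by
  have hS : ∀ Dv, KSC.K3G (toH T) X Dv → ∀ g, KSC.EndHS (toH T) X g →
      ∃ c : (toH T).W.K, ∀ x ∈ KSC.TrA (toH T) X, g x = c • x := by
    intro Dv _ g hg
    obtain ⟨c, hc⟩ := hE g hg
    rw [tr_eq] at hc
    exact ⟨c, hc⟩
  obtain ⟨Dv, hD⟩ := hX.old.toG
  have h1 : ∀ n d c, IsHodge T (pw X n) d c → IsDRB D (pw X n) d c := fun n d c hc =>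
    hodge_drb V5helper81.GK.t_BAS V5helper59.GK.t_K3T hHGT hRTD hALG (T := toH T) D hD
      (hS Dv hD) hP.indep (hP.span.trans tr_eq) hP.det hP.col n d c hc
  have hdim : dimSub (Tr T X) = r := by
    have h2 := finrank_span_eq_card hP.indep
    rw [hP.span, Fintype.card_fin] at h2
    exact h2
  obtain ⟨-, h3⟩ := hodge_part hX hE hdim
  refine ⟨h1, fun n d hnd hP' => ?_, fun hr => ⟨⟨fun hall => ?_, fun hirr => ?_⟩, fun hirr => ?_⟩⟩
  · rcases h3 with h3 | h3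
    · exact h3
    · exact absurd ((h3 n d).1 fun c hc => hP' c (h1 n d c hc)) hnd
  · exact irr_of_drb V5helper81.GK.t_BAS V5helper59.GK.t_K3T
      (V5helper86.GK.t_SCAL V5helper28.GK.t_TYP) hHGT hRTD hIRS hCLS (T := toH T) D hD
      (hS Dv hD) hP.indep (hP.span.trans tr_eq) hP.det hP.col hall
  · exact (gk T D X hX hE r e P hP hirr hr).1
  · obtain ⟨-, -, h5, h6⟩ := gk T D X hX hE r e P hP hirr hr
    obtain ⟨h7, h8⟩ := h6 h1
    exact ⟨h7, h5, h8⟩

end Pool.Agent.V5helper10.GK
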