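import Pool.Agent.V5helper10.GK.Fin2
import Pool.Agent.V5helper10.GK.DefsU
import Pool.Agent.V5helper90.KD.Conv

/-!
# Project GK, part 2: the final theorem with short definitions and with correspondences to one-forms
-/

set_option linter.unusedSectionVars false

open CategoryTheory AlgebraicGeometry TensorProduct

universe u

namespace Pool.Agent.V5helper10.GKU

open Pool.Agent.H914 Pool.Agent.H914.VarClass Pool.Agent.H914.VarClass.Obj
  Pool.Agent.H914.WeilCohomology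
open Pool.Agent.Y121.AHS

variable {k : Type u} [Field k] {𝒱 : VarClass k} {ops : CycleOps 𝒱} {T : HodgeTheory ops}
  {X Y : 𝒱.Obj}

theorem IsK3.stm (h : IsK3 T X) : V5helper90.KD.Stm.IsK3 T X := by
  obtain ⟨D, hD, h2⟩ := h.types
  exact ⟨h.dim, h.odd, h.lefschetz, D, hD, ⟨h2.range, h2.conj, h2.one, h2.big, h2.neg, h2.pos⟩⟩

theorem IsGood.stm (h : IsGood T Y) : V5helper90.KD.Stm.IsGood T Y := by
  obtain ⟨D, hD, h2⟩ := h.types
  exact ⟨h.dim, h.lefschetz, D, hD, ⟨h2.types, h2.conj, h2.pos⟩⟩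

theorem ActsOnForms.stm {c : T.W.H (X.prod Y)} (hc : c ∈ algClasses T.W (X.prod Y) Y.dim)
    (h : ActsOnForms T X Y c) : V5helper90.KD.Stm.ActsOnForms T X Y c := by
  obtain ⟨v, hv, x, hx, h0⟩ := h
  exact ⟨hc, v, hv, x, hx, h0⟩

end Pool.Agent.V5helper10.GKU

namespace Pool.Agent.V5helper10.GK

open Module Matrix
open Pool.Agent.H914 Pool.Agent.H914.VarClass Pool.Agent.H914.VarClass.Obj
  Pool.Agent.H914.WeilCohomology
open Pool.Agent.Y121.AHS
open Pool.Agent.Y133.Half (pw)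
open Pool.Agent.Y133.Per (DeRham IsDRB)
open Pool.Agent.V5helper10.GKU

variable {k : Type u} [Field k] {𝒱 : VarClass k} {ops : CycleOps 𝒱}

theorem gk4_final (hHGT : S_HGT.{u}) (hRTD : S_RTD.{u}) (hALG : S_ALG) (hIRS : S_IRS)
    (hCLS : S_CLS.{u}) (T : HodgeTheory ops) (D : DeRham T.W GKU.QA) (X : 𝒱.Obj) (hX : IsK3 T X)
    (hE : OnlyScalars (T.pq X) (Trans T X)) (r : ℕ) (e : Fin r → T.W.H X)
    (P : Matrix (Fin r) (Fin r) ℂ) (hP : IsPeriodMatrix (D.dR X) (Trans T X) e P) :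
    -- 1. Hodge classes on the powers of `X` are de Rham-Betti classes
    (∀ n d c, IsHodge T (pw X n) d c → IsDRB D (pw X n) d c) ∧
    -- 2. the period conjecture for one pair implies the Hodge conjecture for all powers
    (∀ n d, ¬(d < r ∨ 2 * (n + 1) < d + r) → PeriodAt D (pw X n) d →
      ∀ n d, HodgeIn T (pw X n) d) ∧
    (r ≠ 5 →
      -- 3. all de Rham-Betti classes are Hodge classes if and only if ...
      ((∀ n d c, IsDRB D (pw X n) d c → IsHodge T (pw X n) d c) ↔ GKU.ActsIrreducibly P) ∧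
      -- 4. in this case
      (GKU.ActsIrreducibly P → (∀ n d, PeriodAt D (pw X n) d ↔ HodgeIn T (pw X n) d) ∧
        (∀ n d, d < r ∨ 2 * (n + 1) < d + r → PeriodAt D (pw X n) d) ∧
        ((∀ n d, PeriodAt D (pw X n) d) ∨
          ∀ n d, PeriodAt D (pw X n) d ↔ (d < r ∨ 2 * (n + 1) < d + r)) ∧
        -- 5. correspondences which act on one-forms
        ∀ Y, IsGood T Y → ∀ c ∈ algClasses T.W (X.prod Y) Y.dim, ActsOnForms T X Y c →
          ∀ n d, PeriodAt D (pw X n) d)) := by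
  have hP' : GKS.IsPeriodMatrix (D.dR X) (K3P.Tr T X) e P := ⟨hP.indep, hP.span, hP.det, hP.col⟩
  have hE' : GKS.OnlyScalars (T.pq X) (K3P.Tr T X) := hE
  obtain ⟨h1, h2, h3⟩ := gk2_final hHGT hRTD hALG hIRS hCLS T D X hX.stm.old hE' r e P hP'
  refine ⟨h1, h2, fun hr => ⟨(h3 hr).1, fun hirr => ?_⟩⟩
  obtain ⟨h4, h5, h6⟩ := (h3 hr).2 hirr
  refine ⟨h4, h5, h6, fun Y hY c hc hcf n d => ?_⟩
  obtain ⟨z, hz⟩ := (ActsOnForms.stm hc hcf).old
  have hdim : 0 < K3P.dimSub (K3P.Tr T X) := (K3P.final hX.stm.old).1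
  have hHC := Pool.Agent.V5helper90.KD.main_one hX.stm.old (dim_end hX.stm.old hE' hdim)
    hY.stm.old hz n
  exact (h4 n d).2 fun c hc => hHC d c hc

end Pool.Agent.V5helper10.GK
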