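import Pool.Agent.V5helper10.GK.Stm2
import Pool.Agent.V5helper10.GK.All

/-!
# Project GK, part 2: assembly
-/

set_option linter.unusedSectionVars false

open CategoryTheory AlgebraicGeometry TensorProduct

universe u

namespace Pool.Agent.V5helper10.GK

open Module Matrix
open Pool.Agent.H914 Pool.Agent.H914.VarClass Pool.Agent.H914.VarClass.Obj
  Pool.Agent.H914.WeilCohomology
open Pool.Agent.Y133.Half Pool.Agent.Y121.AH
open Pool.Agent.N996.BP Pool.Agent.N996.BP.Geo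
open Pool.Agent.V5helper10.KSC
open Pool.Agent.W544.K3 (K3Type app cj)
open Pool.Agent.Y133.Per (DeRham IsDRB GPC tm twist twoPiI)

variable {k : Type u} [Field k] {𝒱 : VarClass k} {ops : CycleOps 𝒱}

/-- The period matrix of the whole cohomology. -/
lemma dR_cols {T : HodgeTheory ops} (D : DeRham T.W QA) {X : 𝒱.Obj} {r s : ℕ}
    {e : Fin r → T.W.H X} {P : Matrix (Fin r) (Fin r) ℂ}
    (hcol : ∀ l, ∑ i, tm (twoPiI * P i l) (e i) ∈ D.dR X)
    (f : Basis (Fin s ⊕ Fin r) T.W.K (T.W.H X)) (cod : Fin s → ℕ)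
    (hfe : ∀ a, f (Sum.inr a) = e a) (hfA : ∀ i, f (Sum.inl i) ∈ spanCycles T.W X (cod i)) :
    ∀ l, ∑ i, tm (twoPiI ^ (Sum.elim cod (fun _ => 1) : Fin s ⊕ Fin r → ℕ) i *
      (Matrix.fromBlocks (1 : Matrix (Fin s) (Fin s) ℂ) 0 0 P) i l) (f i) ∈ D.dR X := by
  intro l
  rw [Fintype.sum_sum_type]
  rcases l with l | l
  · have e1 : ∑ a, tm (twoPiI ^ (Sum.elim cod (fun _ => 1) : Fin s ⊕ Fin r → ℕ) (Sum.inr a) *
        (Matrix.fromBlocks (1 : Matrix (Fin s) (Fin s) ℂ) 0 0 P) (Sum.inr a) (Sum.inl l))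
          (f (Sum.inr a)) = (0 : Pool.Agent.Y133.Per.Base T.W.K (T.W.H X)) := by
      refine Finset.sum_eq_zero fun a _ => ?_
      rw [Matrix.fromBlocks_apply₂₁, Matrix.zero_apply, mul_zero]
      exact TensorProduct.zero_tmul _ _
    have e2 : ∑ a, tm (twoPiI ^ (Sum.elim cod (fun _ => 1) : Fin s ⊕ Fin r → ℕ) (Sum.inl a) *
        (Matrix.fromBlocks (1 : Matrix (Fin s) (Fin s) ℂ) 0 0 P) (Sum.inl a) (Sum.inl l))
          (f (Sum.inl a)) =
        (twist (cod l) (f (Sum.inl l)) : Pool.Agent.Y133.Per.Base T.W.K (T.W.H X)) := by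
      rw [Finset.sum_eq_single l]
      · rw [Matrix.fromBlocks_apply₁₁, Matrix.one_apply_eq, mul_one]
        rfl
      · intro a _ ha
        rw [Matrix.fromBlocks_apply₁₁, Matrix.one_apply_ne ha, mul_zero]
        exact TensorProduct.zero_tmul _ _
      · intro h
        exact absurd (Finset.mem_univ _) h
    rw [e1, e2, add_zero]
    exact (drb_of_span D (hfA l)).2
  · have e1 : ∑ a, tm (twoPiI ^ (Sum.elim cod (fun _ => 1) : Fin s ⊕ Fin r → ℕ) (Sum.inl a) *
        (Matrix.fromBlocks (1 : Matrix (Fin s) (Fin s) ℂ) 0 0 P) (Sum.inl a) (Sum.inr l))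
          (f (Sum.inl a)) = (0 : Pool.Agent.Y133.Per.Base T.W.K (T.W.H X)) := by
      refine Finset.sum_eq_zero fun a _ => ?_
      rw [Matrix.fromBlocks_apply₁₂, Matrix.zero_apply, mul_zero]
      exact TensorProduct.zero_tmul _ _
    have e2 : ∑ a, tm (twoPiI ^ (Sum.elim cod (fun _ => 1) : Fin s ⊕ Fin r → ℕ) (Sum.inr a) *
        (Matrix.fromBlocks (1 : Matrix (Fin s) (Fin s) ℂ) 0 0 P) (Sum.inr a) (Sum.inr l))
          (f (Sum.inr a)) =
        (∑ a, tm (twoPiI * P a l) (e a) : Pool.Agent.Y133.Per.Base T.W.K (T.W.H X)) := by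
      refine Finset.sum_congr rfl fun a _ => ?_
      rw [Matrix.fromBlocks_apply₂₂, hfe]
      change (tm (twoPiI ^ 1 * P a l) (e a) : Pool.Agent.Y133.Per.Base T.W.K (T.W.H X)) = _
      rw [pow_one]
    rw [e1, e2, zero_add]
    exact hcol l

lemma bil_mat {r : ℕ} (B : Matrix (Fin r) (Fin r) ℚ) (P : Matrix (Fin r) (Fin r) ℂ) (i j : Fin r) :
    (Pᵀ * BC B * P) i j =
      Pool.Agent.W544.K3.bil B (fun a => P a i) (fun a => P a j) := by
  rw [Pool.Agent.W544.K3.bil, Matrix.mul_apply, Finset.sum_comm]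
  refine Finset.sum_congr rfl fun b _ => ?_
  rw [Matrix.mul_apply, Finset.sum_mul]
  rfl

lemma det_blk {r s : ℕ} {P : Matrix (Fin r) (Fin r) ℂ} (h : P.det ≠ 0) :
    (Matrix.fromBlocks (1 : Matrix (Fin s) (Fin s) ℂ) 0 0 P).det ≠ 0 := by
  rw [Matrix.det_fromBlocks_zero₂₁, Matrix.det_one, one_mul]
  exact h

/-- **Hodge classes on the powers of `X` are de Rham-Betti classes.** -/
theorem hodge_drb (hBAS : S_BAS.{u}) (hK3T : S_K3T.{u}) (hHGT : S_HGT.{u}) (hRTD : S_RTD.{u})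
    (hALG : S_ALG) {T : HodgeTheory ops}
    (D : DeRham T.W QA) {X : 𝒱.Obj} {Dv : T.W.H X} (hK : K3G T X Dv)
    (hS : ∀ g, EndHS T X g → ∃ c : T.W.K, ∀ x ∈ TrA T X, g x = c • x)
    {r : ℕ} {e : Fin r → T.W.H X}
    {P : Matrix (Fin r) (Fin r) ℂ} (hind : LinearIndependent T.W.K e)
    (hspan : Submodule.span T.W.K (Set.range e) = TrA T X) (hdet : P.det ≠ 0)
    (hcol : ∀ l, ∑ i, tm (twoPiI * P i l) (e i) ∈ D.dR X)
    (n d : ℕ) (c : T.W.H (pw X n)) (hc : IsHodge T (pw X n) d c) : IsDRB D (pw X n) d c := by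
  obtain ⟨Y, hYD, hYB, -⟩ := hK3T T D X Dv hK e hind hspan P hdet hcol
  obtain ⟨s, f, cod, hfe, hfH, hfA, hfo⟩ := hBAS T X Dv hK e hind hspan
  have hfT : ∀ a, f (Sum.inr a) ∈ TrA T X := by
    intro a
    rw [hfe, ← hspan]
    exact Submodule.subset_span ⟨a, rfl⟩
  have hfo' : ∀ i a, T.W.tr X (f (Sum.inl i) * f (Sum.inr a)) = 0 := by
    intro i a
    rw [hfe]
    exact hfo i a
  have hYB' : ∀ i j, ((Y.B i j : ℚ) : T.W.K) = T.W.tr X (f (Sum.inr i) * f (Sum.inr j)) := by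
    intro i j
    rw [hfe, hfe]
    exact hYB i j
  choose q hq using T.rat
  obtain ⟨t, ht⟩ : ∃ t : (Fin (n + 1) → Fin s ⊕ Fin r) → ℚ,
      ∀ I, ((t I : ℚ) : T.W.K) = T.W.tr (pw X n) (c * wb f n I) :=
    ⟨fun I => q (T.W.tr (pw X n) (c * wb f n I)), fun I => hq _⟩
  have ht' : ∀ I, algebraMap T.W.K ℂ (T.W.tr (pw X n) (c * wb f n I)) = (t I : ℂ) := by
    intro I
    rw [← ht, map_ratCast]
  have hinv := (hHGT T X Dv hK hS f cod hfH hfT hfo' Y.B hYB' n d c hc).1
  simp only [ht'] at hinv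
  have halg := hALG Y.B Y.symm (V5helper10.DRB.det_ne Y) P hdet (fun i j => by
    rw [bil_mat, ← hYD]
    exact Y.alg i j) t hinv
  have hfd : ∀ i, f i ∈ T.W.gr X (2 * (Sum.elim cod (fun _ => 1) : Fin s ⊕ Fin r → ℕ) i) := by
    rintro (i | i)
    · exact (hfH i).1
    · exact (hfT i).1
  refine hRTD T.W QA D X f _ hfd _ (det_blk hdet) (dR_cols D hcol f cod hfe hfA) n d c hc.1
    fun J => ?_
  simp only [ht']
  exact mem_algebraicClosure_iff.2 (halg J)

/-- **If all de Rham-Betti classes are Hodge classes then the Lie algebra acts irreducibly.** -/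
theorem irr_of_drb (hBAS : S_BAS.{u}) (hK3T : S_K3T.{u}) (hSCAL : S_SCAL.{u}) (hHGT : S_HGT.{u})
    (hRTD : S_RTD.{u}) (hIRS : S_IRS) (hCLS : S_CLS.{u}) {T : HodgeTheory ops}
    (D : DeRham T.W QA) {X : 𝒱.Obj} {Dv : T.W.H X} (hK : K3G T X Dv)
    (hS : ∀ g, EndHS T X g → ∃ c : T.W.K, ∀ x ∈ TrA T X, g x = c • x)
    {r : ℕ} {e : Fin r → T.W.H X}
    {P : Matrix (Fin r) (Fin r) ℂ} (hind : LinearIndependent T.W.K e)
    (hspan : Submodule.span T.W.K (Set.range e) = TrA T X) (hdet : P.det ≠ 0)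
    (hcol : ∀ l, ∑ i, tm (twoPiI * P i l) (e i) ∈ D.dR X)
    (hall : ∀ n d c, IsDRB D (pw X n) d c → IsHodge T (pw X n) d c) : ActsIrreducibly P := by
  obtain ⟨Y, hYD, hYB, hYω⟩ := hK3T T D X Dv hK e hind hspan P hdet hcol
  obtain ⟨s, f, cod, hfe, hfH, hfA, hfo⟩ := hBAS T X Dv hK e hind hspan
  have hfT : ∀ a, f (Sum.inr a) ∈ TrA T X := by
    intro a
    rw [hfe, ← hspan]
    exact Submodule.subset_span ⟨a, rfl⟩
  have hfo' : ∀ i a, T.W.tr X (f (Sum.inl i) * f (Sum.inr a)) = 0 := by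
    intro i a
    rw [hfe]
    exact hfo i a
  have hYB' : ∀ i j, ((Y.B i j : ℚ) : T.W.K) = T.W.tr X (f (Sum.inr i) * f (Sum.inr j)) := by
    intro i j
    rw [hfe, hfe]
    exact hYB i j
  have hYω' : ∑ i, (Y.ω i) ⊗ₜ[T.W.K] (f (Sum.inr i)) ∈ Fx T X (2, 0) := by
    simp only [hfe]
    exact hYω
  have hQ := hSCAL T X Dv hK f cod hfH hfT hfo' Y hYB' hYω' (fun g hg1 _ _ => hS g hg1)
  have hfd : ∀ i, f i ∈ T.W.gr X (2 * (Sum.elim cod (fun _ => 1) : Fin s ⊕ Fin r → ℕ) i) := by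
    rintro (i | i)
    · exact (hfH i).1
    · exact (hfT i).1
  have key := hIRS Y hQ ?_
  · rwa [hYD] at key
  intro m t ht u v
  rw [hYD] at ht
  rcases m with _ | n
  · intro J
    exact Finset.sum_eq_zero fun l _ => l.elim0
  obtain ⟨c, hcg, hc1, hc2⟩ := hCLS T.W X f Y.B (fun a => (hfT a).1)
    (fun i => ⟨cod i, (hfH i).1⟩) hfo' hYB' (V5helper10.DRB.det_ne Y) n t
  have hinj : Function.Injective
      (fun I : Fin (n + 1) → Fin r => fun l => (Sum.inr (I l) : Fin s ⊕ Fin r)) := by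
    intro I J h
    funext l
    exact Sum.inr_injective (congrFun h l)
  have hcD : IsDRB D (pw X n) (n + 1) c := by
    refine hRTD T.W QA D X f _ hfd _ (det_blk hdet) (dR_cols D hcol f cod hfe hfA) n (n + 1) c hcg
      fun J => ?_
    by_cases hJ : ∃ l i, J l = Sum.inl i
    · obtain ⟨l, i, hli⟩ := hJ
      rw [Finset.sum_eq_zero]
      · exact QA.zero_mem
      · intro I _
        rcases hI : I l with b | b
        · rw [hc2 I l b hI, map_zero, zero_mul]
        · rw [Finset.prod_eq_zero (Finset.mem_univ l), mul_zero]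
          rw [hI, hli, Matrix.fromBlocks_apply₂₁, Matrix.zero_apply]
    · push Not at hJ
      have hJ' : ∀ l, ∃ a, J l = Sum.inr a := by
        intro l
        rcases h : J l with b | b
        · exact absurd h (hJ l b)
        · exact ⟨b, rfl⟩
      choose J' hJ' using hJ'
      have h2 : ∑ I : Fin (n + 1) → Fin s ⊕ Fin r,
          algebraMap T.W.K ℂ (T.W.tr (pw X n) (c * wb f n I)) *
            ∏ l, (Matrix.fromBlocks (1 : Matrix (Fin s) (Fin s) ℂ) 0 0 P) (I l) (J l) =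
          ∑ I : Fin (n + 1) → Fin r, (t I : ℂ) * ∏ l, P (I l) (J' l) := by
        symm
        refine Fintype.sum_of_injective _ hinj _ _ (fun I hI => ?_) (fun I => ?_)
        · have h3 : ∃ l b, I l = Sum.inl b := by
            by_contra hcon
            push Not at hcon
            apply hI
            have h4 : ∀ l, ∃ a, I l = Sum.inr a := by
              intro l
              rcases h : I l with b | b
              · exact absurd h (hcon l b)
              · exact ⟨b, rfl⟩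
            choose I' hI' using h4
            exact ⟨I', funext fun l => (hI' l).symm⟩
          obtain ⟨l, b, hb⟩ := h3
          rw [hc2 I l b hb, map_zero, zero_mul]
        · change _ = algebraMap T.W.K ℂ (T.W.tr (pw X n) (c * wb f n fun l => Sum.inr (I l))) *
            ∏ l, (Matrix.fromBlocks (1 : Matrix (Fin s) (Fin s) ℂ) 0 0 P) (Sum.inr (I l)) (J l)
          rw [hc1 I, map_ratCast]
          congr 1
          refine Finset.prod_congr rfl fun l _ => ?_
          rw [hJ' l, Matrix.fromBlocks_apply₂₂]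
      rw [h2]
      exact mem_algebraicClosure_iff.2 (ht J')
  have h5 := (hHGT T X Dv hK hS f cod hfH hfT hfo' Y.B hYB' n (n + 1) c (hall n _ c hcD)).2 u v
  intro J
  have h6 := h5 (fun l => Sum.inr (J l))
  rw [← h6]
  refine Finset.sum_congr rfl fun l _ => ?_
  rw [Fintype.sum_sum_type]
  have h7 : ∑ a : Fin s, (Matrix.fromBlocks (0 : Matrix (Fin s) (Fin s) ℂ) 0 0 (wo Y.B u v))
      (Sum.inl a) (Sum.inr (J l)) * algebraMap T.W.K ℂ (T.W.tr (pw X n)
        (c * wb f n (Function.update (fun l => Sum.inr (J l)) l (Sum.inl a)))) = 0 := by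
    refine Finset.sum_eq_zero fun a _ => ?_
    rw [Matrix.fromBlocks_apply₁₂, Matrix.zero_apply, zero_mul]
  rw [h7, zero_add]
  refine Finset.sum_congr rfl fun a _ => ?_
  rw [Matrix.fromBlocks_apply₂₂]
  congr 1
  have h8 : Function.update (fun l => (Sum.inr (J l) : Fin s ⊕ Fin r)) l (Sum.inr a) =
      fun l' => Sum.inr (Function.update J l a l') := by
    funext l'
    by_cases h : l' = l
    · subst h
      rw [Function.update_self, Function.update_self]
    · rw [Function.update_of_ne h, Function.update_of_ne h]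
  rw [h8]
  change ((t (Function.update J l a) : ℚ) : ℂ) = algebraMap T.W.K ℂ (T.W.tr (pw X n)
    (c * wb f n fun l' => Sum.inr (Function.update J l a l')))
  rw [hc1, map_ratCast]

end Pool.Agent.V5helper10.GK
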