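import Pool.Agent.V5helper10.KSC.GStm
import Pool.Agent.V5helper10.K3P.Bridge
import Pool.Agent.Y133.Half.Per
import Pool.Agent.W544.K3.Defs

/-!
# Project GK: the Grothendieck period conjecture for the powers of K3 surfaces. Statements of the jobs

Let `X` be a K3 surface over the field of algebraic numbers with `End T(X) = ℚ`, `rank T(X) ≠ 5`. We show:
`GPC^d(X^N)` holds if and only if the Hodge conjecture holds for `X^N` in codimension `d`; so `GPC^d(X^N)` holds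
for all `d < m` and `d > 2 N - m`, `m = rank T(X)`, and one pair `(N, d)` with `m ≤ d ≤ 2 N - m` decides all others.
The pure part (all de Rham-Betti classes on all powers are Hodge classes) is `powers_hodge` in
`V5helper10/DRB/All.lean`, for the structure `K3Type` of `W544/K3/Defs.lean`; the geometric part for Hodge classes is
the theorem `final` of `V5helper10/K3P/Final.lean`. The jobs connect the two.

Conventions: `T : HodgeTheory` is `Pool.Agent.Y121.AH.HodgeTheory`, `Fx T X (p, q)` is `H^(p,q)(X)` in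
`ℂ ⊗ H(X)`, `sig (tauT T)` the complex conjugation, `pw X n = X^(n+1)`, `wb f n I = f (I 0) × … × f (I n)`
(`N996/BP/Geo*.lean`: `wb_zero`, `wb_succ`), `K3G`, `TrA`, `Dat`, `ABas` are in `KSC/GDefs.lean`. De Rham structures:
`Y133/Half/PerDefs.lean` and the lemmas in `Y133/Half/Per.lean` (`tm`, `twist`, `baseTr_tm`, `baseMap_tm`, `tm_mul`,
`smul_tm`, `IsDRB.cl`, `IsDRB.smul`, `IsDRB.add`, …). `Base K A` is by definition `ℂ ⊗[K] A`.
Prove `theorem t_<JOB> : S_<JOB>.{u}` in your own file `Pool/Agent/V5<you>/GK/<JOB>.lean`; other statements may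
be used as hypotheses.
-/

set_option linter.unusedSectionVars false

open CategoryTheory AlgebraicGeometry TensorProduct

universe u

namespace Pool.Agent.V5helper10.GK

open Module Matrix
open Pool.Agent.H914 Pool.Agent.H914.VarClass Pool.Agent.H914.VarClass.Obj
  Pool.Agent.H914.WeilCohomology
open Pool.Agent.Y133.Half Pool.Agent.Y121.AH
open Pool.Agent.N996.BP Pool.Agent.N996.BP.Geo
open Pool.Agent.V5helper10.KSC
open Pool.Agent.W544.K3 (K3Type bil app cj)
open Pool.Agent.Y133.Per (DeRham IsDRB GPC tm twist twoPiI)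

/-- The field of algebraic numbers. -/
noncomputable abbrev QA : Subfield ℂ := (algebraicClosure ℚ ℂ).toSubfield

/-- The rational matrices which kill all de Rham-Betti classes on all tensor powers; the columns of `P`
are the de Rham vectors. (This is `K3Type.lie` for `X.D = P`.) -/
def lie {r : ℕ} (P : Matrix (Fin r) (Fin r) ℂ) : Set (Matrix (Fin r) (Fin r) ℚ) :=
  {x | ∀ (m : ℕ) (t : (Fin m → Fin r) → ℚ),
    (∀ J : Fin m → Fin r, IsAlgebraic ℚ (∑ I : Fin m → Fin r, (t I : ℂ) * ∏ j, P (I j) (J j))) →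
    ∀ I : Fin m → Fin r, ∑ j, ∑ l, x l (I j) * t (Function.update I j l) = 0}

/-- The Lie algebra acts irreducibly on the space of complex vectors. -/
def ActsIrreducibly {r : ℕ} (P : Matrix (Fin r) (Fin r) ℂ) : Prop :=
  ∀ M : Submodule ℂ (Fin r → ℂ), (∀ x ∈ lie P, ∀ v ∈ M, x.map (fun q : ℚ => (q : ℂ)) *ᵥ v ∈ M) →
    M = ⊥ ∨ M = ⊤

/-- JOB DRT (de Rham-Betti classes have algebraic values on de Rham vectors). Let `f` be a basis of `H(X)`,
`f i` of degree `2 cod i`, and let the vectors `v_l = ∑ (2πi)^(cod i) P_il f_i` lie in the de Rham cohomology. If `c` is a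
de Rham-Betti class of codimension `j` on `X^(n+1)` then for all `J` the number
`∑_I tr(c (f_(I 0) × … × f_(I n))) ∏ P(I k, J k)` lies in `F`.

Proof. By induction on `n` (`D.form.mul`, `D.map`, `wb_succ`, `xp`) the class
`y = v_(J 0) × … × v_(J n) = ∑_I (∏_k (2πi)^(cod (I k)) P(I k, J k)) f_(I 0) × … × f_(I n)` is in `D.dR (pw X n)`. So is
`x = twist j c`, so `baseTr (x y) = (2πi)^(dim X^(n+1)) ρ` with `ρ ∈ F` (`D.form.mul`, `D.form.tr`). The left side is
`∑_I (2πi)^(j + ∑ cod (I k)) tr(c f_I) ∏ P(I k, J k)`, and `tr(c f_I) = 0` unless `j + ∑ cod (I k) = dim X^(n+1)`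
(`W.tr_eq_zero`; the degree of `wb f n I` is `2 ∑ cod (I k)`). Divide by `(2πi)^(dim X^(n+1))` (`twoPiI_ne`). -/
def S_DRT : Prop := ∀ {k : Type u} [Field k] {𝒱 : VarClass k} {ops : CycleOps 𝒱}
  (W : WeilCohomology.{u, 0} ops) [Algebra W.K ℂ] (F : Subfield ℂ) (D : DeRham W F) (X : 𝒱.Obj)
  {κ : Type} [Fintype κ] [DecidableEq κ] (f : Basis κ W.K (W.H X)) (cod : κ → ℕ),
  (∀ i, f i ∈ W.gr X (2 * cod i)) → ∀ P : Matrix κ κ ℂ,
  (∀ l, ∑ i, tm (twoPiI ^ cod i * P i l) (f i) ∈ D.dR X) →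
  ∀ (n j : ℕ) (c : W.H (pw X n)), IsDRB D (pw X n) j c → ∀ J : Fin (n + 1) → κ,
  ∑ I : Fin (n + 1) → κ, algebraMap W.K ℂ (W.tr (pw X n) (c * wb f n I)) * ∏ l, P (I l) (J l) ∈ F

/-- JOB BACK (recognising Hodge classes). A class `c` of degree `2 j` on `X^(n+1)` is a Hodge class if
`tr(c (v_0 × … × v_n)) = 0` for all `v_l ∈ H^(p_l,q_l)(X)` with `∑ p_l ≠ ∑ q_l` (in coordinates for any basis `f`).

Proof. Let `M : Dat T X Dv ι` (`S_dat` of KSC, proved: `KSC.All.h_dat`), `e = M.e`, `H = M.H`. By multilinearity (change of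
basis) the hypothesis holds for `e` instead of `f`. Let `c = clw e n a` (`cls_surj`), `G i j = tr(e_i e_j)` (rational) and
`b(I) = tr(c wb e n I) = ∑_w a(w) ∏ G(w k, I k)` (`tr_wb` in `V5helper44/KSC/Main2.lean`). For pure vectors `v_l`
(`H.π (k_l) v_l = v_l`; `M.hH`, `mG`, `crd`: `H.π (p - q)` is the projector to the coordinates of `Fx (p, q)`, `p + q = 2`,
and the coordinates of `Fx (0, 0)`, `Fx (2, 2)` belong to the weight `0`) `∑_I b(I) ∏ v_l(I l) = 0` if `∑ k_l ≠ 0`. Hence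
`∑_I b(I) ∏ (H.l z v_l)(I l)` does not depend on `z` for arbitrary `v_l = ∑ π_k v_l`, i.e. `kp (H.l z)ᵀ b = b`. The matrix
`G` is invertible and `(H.l z)ᵀ G = G (H.l z)⁻¹`: on `e_o = 1` and `e_p` `H.l z` is the identity and otherwise `G` is
`± H.Qr` (`M.hQ`, `qd`, `ABas.orth`), `H.l_tr`. So `kp (H.l z⁻¹) a = a`, `a ∈ BB H (Fin (n + 1))`, and by `inv_cls M.e
M.hH`, `inv_iff` `c` is a sum of Hodge classes (of all codimensions), hence Hodge of codimension `j` since it is of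
degree `2 j` (compare `S_main0`, `V5helper10/K3P/Tri.lean`). Alternatively work without coordinates: if `c = ∑ c_(a,b)`,
`a + b = 2 j`, is the Hodge decomposition, `c_(a,b) = 0` for `a ≠ b`, because `tr(c_(a,b) y) = tr(c y) = 0` for all
`y ∈ H^(d-a,d-b)(X^(n+1))`, which is spanned by the `v_0 × … × v_n`. -/
def S_BACK : Prop := ∀ {k : Type u} [Field k] {𝒱 : VarClass k} {ops : CycleOps 𝒱}
  (T : HodgeTheory ops) (X : 𝒱.Obj) (Dv : T.W.H X), K3G T X Dv →
  ∀ {κ : Type} [Fintype κ] [DecidableEq κ] (f : Basis κ T.W.K (T.W.H X)) (n j : ℕ)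
    (c : T.W.H (pw X n)), c ∈ T.W.gr (pw X n) (2 * j) →
  (∀ (p q : Fin (n + 1) → ℤ) (v : Fin (n + 1) → κ → ℂ),
    (∀ l, ∑ i, (v l i) ⊗ₜ[T.W.K] (f i) ∈ Fx T X (p l, q l)) → ∑ l, p l ≠ ∑ l, q l →
    ∑ I : Fin (n + 1) → κ, algebraMap T.W.K ℂ (T.W.tr (pw X n) (c * wb f n I)) *
      ∏ l, v l (I l) = 0) →
  IsHodge T (pw X n) j c

/-- JOB BAS (a basis). A basis of the transcendental part is completed to a basis of `H(X)` by algebraic classes.

Proof. Let `M : Dat T X Dv ι` (`KSC.All.h_dat`). The `M.e i`, `i ∈ M.tt`, are a basis of `TrA T X` (see the proof of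
`S_alt`, G6, for `M.tt.card = finrank (TrA T X)`), and the other `M.e i` are `1`, a multiple of `Dv * Dv` (`H⁴` is
one-dimensional) and Hodge classes of degree two, all algebraic (`K3G.lef`, `K3G.div`; in codimension two `Dv * Dv ≠ 0` is
algebraic). They span a complement of `TrA T X`, so together with `e` they form a basis. `spanCycles T.W X q` is the
span of the classes of the cycles of codimension `q`; the elements of `algSpan` of degree `2 q` lie in it. -/
def S_BAS : Prop := ∀ {k : Type u} [Field k] {𝒱 : VarClass k} {ops : CycleOps 𝒱}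
  (T : HodgeTheory ops) (X : 𝒱.Obj) (Dv : T.W.H X), K3G T X Dv →
  ∀ {r : ℕ} (e : Fin r → T.W.H X), LinearIndependent T.W.K e →
  Submodule.span T.W.K (Set.range e) = TrA T X →
  ∃ (s : ℕ) (f : Basis (Fin s ⊕ Fin r) T.W.K (T.W.H X)) (cod : Fin s → ℕ),
    (∀ a, f (Sum.inr a) = e a) ∧ (∀ i, IsHodge T X (cod i) (f (Sum.inl i))) ∧
    (∀ i, f (Sum.inl i) ∈ spanCycles T.W X (cod i)) ∧
    ∀ i a, T.W.tr X (f (Sum.inl i) * e a) = 0

/-- JOB K3T (the K3 structure in coordinates).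

Proof. `B i j = tr(e_i e_j)` is rational (`T.rat`), symmetric (even classes commute). `H^(2,0)` is spanned by a class
`x ≠ 0` (`K3G.one`), which is orthogonal to all Hodge classes of degree two (the product is of type `(3, 1)`), so it is
`∑ ω_i ⊗ e_i` (`C ⊗ H² = C ⊗ Hodge classes ⊕ C ⊗ TrA`, orthogonal; see the basis `M.e` of `Dat`, `KSC.All.h_dat`, and G3,
`V5helper77/KSC/G3.lean`). `iso`: `x * x` is of type `(4, 0)`, so zero. `pos`: `K3G.hol`, `sig (tauT T) x = ∑ conj ω_i ⊗ e_i`.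
`neg`: for a real vector `v ≠ 0` with `bil B v ω = 0` the class `y = ∑ v_i ⊗ e_i` is real, orthogonal to `H^(2,0)` and so to
`H^(0,2)`, so it is in `H^(1,1)` (decompose `y`; the pairing of `H^(2,0)`, `H^(0,2)` is nondegenerate by `hol`), it is
orthogonal to `Dv` (`TrA`), so `K3G.idx` applies. `D = P`, `det ≠ 0` is given. `alg`: for two columns `x_i`, `x_j ∈ D.dR X` of the
hypothesis `baseTr (x_i x_j) = (2πi)² bil B (P_i) (P_j)` lies in `(2πi)² QA` (`D.form.mul`, `D.form.tr`, `dim X = 2`). -/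
def S_K3T : Prop := ∀ {k : Type u} [Field k] {𝒱 : VarClass k} {ops : CycleOps 𝒱}
  (T : HodgeTheory ops) (D : DeRham T.W QA) (X : 𝒱.Obj) (Dv : T.W.H X), K3G T X Dv →
  ∀ {r : ℕ} (e : Fin r → T.W.H X), LinearIndependent T.W.K e →
  Submodule.span T.W.K (Set.range e) = TrA T X →
  ∀ P : Matrix (Fin r) (Fin r) ℂ, P.det ≠ 0 →
  (∀ l, ∑ i, tm (twoPiI * P i l) (e i) ∈ D.dR X) →
  ∃ Y : K3Type r, Y.D = P ∧ (∀ i j, ((Y.B i j : ℚ) : T.W.K) = T.W.tr X (e i * e j)) ∧
    ∑ i, (Y.ω i) ⊗ₜ[T.W.K] (e i) ∈ Fx T X (2, 0)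

/-- JOB TYP (the coordinates of pure classes).

Proof. If `v ≠ 0` then `Fx T X (p, q) ≠ ⊥`, so `0 ≤ p, q ≤ 2` (`K3G.range`), and `p + q` is even (`H¹ = 0`, so `H³ = 0` by
duality; the Hodge classes `f (inl i)` and the `e a` are of even degree). `(2, 0)`: `K3G.one` and `Y.ω ≠ 0` (`Y.pos`), compare
coordinates. `(0, 2)`: apply `sig (tauT T)` (`K3G.cnj`). `(0, 0)`, `(2, 2)`: the coordinates on the `e a` (degree two) vanish.
`(1, 1)`: `0 = tr(x ∑ ω_i ⊗ e_i) = bil B (v ∘ inr) ω` since the product is of type `(3, 1)` and `tr(f (inl i) e_a) = 0`;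
the same for the conjugate. -/
def S_TYP : Prop := ∀ {k : Type u} [Field k] {𝒱 : VarClass k} {ops : CycleOps 𝒱}
  (T : HodgeTheory ops) (X : 𝒱.Obj) (Dv : T.W.H X), K3G T X Dv →
  ∀ {r s : ℕ} (f : Basis (Fin s ⊕ Fin r) T.W.K (T.W.H X)) (cod : Fin s → ℕ),
  (∀ i, IsHodge T X (cod i) (f (Sum.inl i))) → (∀ a, f (Sum.inr a) ∈ TrA T X) →
  (∀ i a, T.W.tr X (f (Sum.inl i) * f (Sum.inr a)) = 0) →
  ∀ Y : K3Type r, (∀ i j, ((Y.B i j : ℚ) : T.W.K) = T.W.tr X (f (Sum.inr i) * f (Sum.inr j))) →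
  ∑ i, (Y.ω i) ⊗ₜ[T.W.K] (f (Sum.inr i)) ∈ Fx T X (2, 0) →
  ∀ (p q : ℤ) (v : Fin s ⊕ Fin r → ℂ), ∑ i, (v i) ⊗ₜ[T.W.K] (f i) ∈ Fx T X (p, q) →
    v = 0 ∨ (p = 2 ∧ q = 0 ∧ ∃ c : ℂ, v = c • Sum.elim (fun _ => 0) Y.ω) ∨
    (p = 0 ∧ q = 2 ∧ ∃ c : ℂ, v = c • Sum.elim (fun _ => 0) (cj Y.ω)) ∨
    (p = q ∧ bil Y.B (v ∘ Sum.inr) Y.ω = 0 ∧ bil Y.B (v ∘ Sum.inr) (cj Y.ω) = 0)

/-- JOB SCAL (`End T(X) = ℚ`). If the endomorphisms of the Hodge structure `T(X)` (extended by zero) are scalars, so are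
the matrices `HodgeEnd`.

Proof. Let `HodgeEnd Q`, and let `g` be the linear map with `g (e a) = ∑_b Q_ba e_b` which vanishes on the orthogonal
complement of `TrA T X` (e.g. on the `f (inl i)` of `S_BAS`). `EndHS T X g`: on `H^(0,0)`, `H^(2,2)` it is zero; on `H^(2,0)` (spanned by
`∑ ω_i ⊗ e_i`) it is a scalar, on `H^(0,2)` as well (conjugate, `Q` is rational); a class in `H^(1,1)` is the sum of a
combination of Hodge classes, where `g = 0`, and of `∑ v_i ⊗ e_i` with `bil B v ω = bil B v (cj ω) = 0` (`S_TYP`), which is mapped to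
such a class, and the classes of this form are in `H^(1,1)` (decompose; the pairing of `H^(2,0)` and `H^(0,2)` is nondegenerate).
By hypothesis `g = c` on `TrA T X`, so `Q = c` (`T.rat`). -/
def S_SCAL : Prop := ∀ {k : Type u} [Field k] {𝒱 : VarClass k} {ops : CycleOps 𝒱}
  (T : HodgeTheory ops) (X : 𝒱.Obj) (Dv : T.W.H X), K3G T X Dv →
  ∀ {r s : ℕ} (f : Basis (Fin s ⊕ Fin r) T.W.K (T.W.H X)) (cod : Fin s → ℕ),
  (∀ i, IsHodge T X (cod i) (f (Sum.inl i))) → (∀ a, f (Sum.inr a) ∈ TrA T X) →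
  (∀ i a, T.W.tr X (f (Sum.inl i) * f (Sum.inr a)) = 0) →
  ∀ Y : K3Type r, (∀ i j, ((Y.B i j : ℚ) : T.W.K) = T.W.tr X (f (Sum.inr i) * f (Sum.inr j))) →
  ∑ i, (Y.ω i) ⊗ₜ[T.W.K] (f (Sum.inr i)) ∈ Fx T X (2, 0) →
  (∀ g : T.W.H X →ₗ[T.W.K] T.W.H X, EndHS T X g → (∀ x, g x ∈ TrA T X) →
    (∀ i, g (f (Sum.inl i)) = 0) → ∃ c : T.W.K, ∀ x ∈ TrA T X, g x = c • x) →
  ∀ Q, Y.HodgeEnd Q → ∃ c : ℚ, Q = c • (1 : Matrix (Fin r) (Fin r) ℚ)

/-- JOB IRR (pure linear algebra, Schur's lemma). If `lie Y.D` acts irreducibly then it acts semisimply and its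
commutant consists of the scalars.

Proof. `Y.lie = lie Y.D` (`rfl` up to the names of the variables), `app x v = x.map _ *ᵥ v`. A stable subspace is `⊥` or `⊤`; take
the other one as complement. If `Q` commutes with the Lie algebra, an eigenspace of `Q` (`Module.End.exists_eigenvalue`,
`r > 0`) is stable and nonzero, so `Q` is a scalar, a multiple of the image of `1`, `HodgeEnd 1`. -/
def S_IRR : Prop := ∀ {r : ℕ} (Y : K3Type r), 0 < r → ActsIrreducibly Y.D →
  Y.Reductive ∧ Y.EndHodge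

end Pool.Agent.V5helper10.GK
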