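import Pool.Agent.V5helper10.GK.Stm
import Pool.Agent.V5helper10.KSC.All

/-!
# Project GK, part 2: Hodge classes on the powers are de Rham-Betti classes, and the criterion

`X` is a K3 surface over the field of algebraic numbers with `End T(X) = ℚ`. New parts of the theorem (everything
without any hypothesis on the periods):
* all Hodge classes on all powers of `X` are de Rham-Betti classes (so the theorem of Deligne and André, which was a
  hypothesis in part 1, is proved);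
* so the period conjecture in codimension `d` for ONE power `X^N` with `r ≤ d ≤ 2 N - r` implies the Hodge conjecture
  for all powers;
* if `r ≠ 5`, the Lie algebra `lie P` acts irreducibly if and only if all de Rham-Betti classes on all powers are Hodge
  classes.

The idea: Hodge classes are invariant under `SO(T(X) ⊗ ℂ)` (proved in KSC), and a form which is invariant under the
special orthogonal group has algebraic values on the columns of `P` because `Pᵀ B P` is algebraic.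

Prove `theorem t_<JOB> : S_<JOB>` (`.{u}` where needed) in your own file `Pool/Agent/V5<you>/GK/<JOB>.lean`; other
statements (also of part 1, all proved: `Pool.Agent.V5helper10.GK.All`) may be used.
-/

set_option linter.unusedSectionVars false

open CategoryTheory AlgebraicGeometry TensorProduct

universe u

namespace Pool.Agent.V5helper10.GK

open Module Matrix
open Pool.Agent.H914 Pool.Agent.H914.VarClass Pool.Agent.H914.VarClass.Obj
  Pool.Agent.H914.WeilCohomology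
open Pool.Agent.Y133.Half Pool.Agent.Y121.AH
open Pool.Agent.N996.BP Pool.Agent.N996.BP.Geo
open Pool.Agent.N996.FP (So ho)
open Pool.Agent.V5helper10.KSC
open Pool.Agent.W544.K3 (K3Type app cj)
open Pool.Agent.Y133.Per (DeRham IsDRB GPC tm twist twoPiI)

/-- The complex matrix of a rational matrix. -/
def BC {r : ℕ} (B : Matrix (Fin r) (Fin r) ℚ) : Matrix (Fin r) (Fin r) ℂ :=
  B.map (fun q : ℚ => (q : ℂ))

/-- The operator `z ↦ B(v, z) u - B(u, z) v` (`B` symmetric). -/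
def wo {r : ℕ} (B : Matrix (Fin r) (Fin r) ℚ) (u v : Fin r → ℂ) : Matrix (Fin r) (Fin r) ℂ :=
  Matrix.vecMulVec u (BC B *ᵥ v) - Matrix.vecMulVec v (BC B *ᵥ u)

/-- The form `t` is invariant under `A`. -/
def MInv {m : ℕ} {κ : Type} [Fintype κ] (t : (Fin m → κ) → ℂ) (A : Matrix κ κ ℂ) : Prop :=
  ∀ J : Fin m → κ, ∑ I : Fin m → κ, t I * ∏ l, A (I l) (J l) = t J

/-- The form `t` is killed by `x` (derivation). -/
def LInv {m : ℕ} {κ : Type} [Fintype κ] (t : (Fin m → κ) → ℂ) (x : Matrix κ κ ℂ) : Prop :=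
  ∀ J : Fin m → κ, ∑ l, ∑ i, x i (J l) * t (Function.update J l i) = 0

/-- JOB SOI (Zarhin's theorem for `End T(X) = ℚ`, from the KSC library). The Hodge arrays are fixed by the special
orthogonal group of `TC M.tt` and killed by its Lie algebra.

Proof. `finrank (EndTrA T X) = 1` (`finrank_one` in `GK/Main.lean`, copy it or import the file; `TrA T X ≠ 0` since
`M.tt` is not empty: `tt_pos` in `KSC/Fin2.lean`), so `finrank (HE M.H M.tt) = 1` (`KSC.All.h_end`), and by
`KSC.All.h_dim` the space `MM M.H w 1` (`w` from `KSC.All.h_k3`) has dimension `M.tt.card = finrank (TC M.tt)`. It is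
contained in `TC M.tt` (`KSC.All.h_sum`), so it is equal to it. The form `bq` is nondegenerate on `TC M.tt` (`Qr` is
diagonal with nonzero entries, `M.hQ`, `Qr_self_ne` in `V5helper60/KSC/LD4.lean`), so `MM = MB` by `KSC.All.h_pair`
(otherwise `MM` is isotropic). Now use `KSC.All.h_wd` (`σ = 1`) and `KSC.All.h_so` with `N = TC M.tt` (a vector
orthogonal to `TC M.tt` is supported outside `M.tt`, a combination of the `Pi.single i 1`, `i ∉ M.tt`). -/
def S_SOI : Prop := ∀ {k : Type u} [Field k] {𝒱 : VarClass k} {ops : CycleOps 𝒱}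
  (T : HodgeTheory ops) (X : 𝒱.Obj) (Dv : T.W.H X), K3G T X Dv →
  (∀ g, EndHS T X g → ∃ c : T.W.K, ∀ x ∈ TrA T X, g x = c • x) →
  ∀ {ι : Type} [Fintype ι] [DecidableEq ι] (M : Dat T X Dv ι),
  (∀ x ∈ TC M.tt, ∀ y ∈ TC M.tt, wd M.H x y ∈ ho M.H) ∧
  ∀ A : Matrix ι ι ℂ, Aᵀ * cQ M.H.Qr * A = cQ M.H.Qr → (∀ v ∈ TC M.tt, A *ᵥ v ∈ TC M.tt) →
    (∀ i, i ∉ M.tt → A *ᵥ (Pi.single i 1 : ι → ℂ) = Pi.single i 1) → A.det = 1 → A ∈ So M.H

/-- JOB HGT (uses `S_SOI` as a hypothesis: `theorem t_HGT (h : S_SOI.{u}) : S_HGT.{u}`). The form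
`t I = tr(c (f_(I 0) × … × f_(I n)))` of a Hodge class `c` is invariant under `SO(B)` and killed by its Lie algebra.

Proof. Let `M : Dat T X Dv ι` (`KSC.All.h_dat`), `c = clw M.e n a` (`cls_surj`; `clw = cls`), `a ∈ BB M.H _` (`inv_cls`,
`inv_iff`, as in BACK, `V5helper65/GK/BACK.lean`, and `hc_iff`, `sp_iff`). Let `f_j = ∑ F_ij M.e_i`, `F` rational (`T.rat`)
and invertible. `F_ij = 0` for `i ∈ tt`, `j = inl _` and for `i ∉ tt`, `j = inr _` (`Pool.Agent.V5helper6.KSC.mem_TrA`;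
a class orthogonal to `TrA` has no coordinates in `tt`: `orth_TrA`). With `G_ij = tr(e_i e_j)`: `t(J) = ∑_V a(V)
∏ (G F)(V k, J k)` (`tr_wb` in `V5helper44/KSC/Main2.lean`; expand `wb f n J` in the `wb e n W`). For `g` put
`A = F (1 ⊕ g) F⁻¹`: it is the identity on the `e_i`, `i ∉ tt`, preserves `TC tt`, `det A = 1`, and it is an isometry for
`G` and for `Qr` (both are block diagonal, `Qr = - G` on `tt`, `M.hQ`, `qd`). By `S_SOI` `a` is fixed by `kp A`, so
`∑_I t(I) ∏ (1 ⊕ g)(I k, J k) = ∑_V a(V) ∏ (G A F)(V k, J k) = ∑_V a(V) ∏ ((A⁻¹)ᵀ G F)(V k, J k) = t(J)`.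
The second part in the same way with `x = F (0 ⊕ wo B u v) F⁻¹ = ± wd M.H (F u) (F v)`, `xᵀ G + G x = 0`,
`dk _ x *ᵥ ca a = 0`. -/
def S_HGT : Prop := ∀ {k : Type u} [Field k] {𝒱 : VarClass k} {ops : CycleOps 𝒱}
  (T : HodgeTheory ops) (X : 𝒱.Obj) (Dv : T.W.H X), K3G T X Dv →
  (∀ g, EndHS T X g → ∃ c : T.W.K, ∀ x ∈ TrA T X, g x = c • x) →
  ∀ {r s : ℕ} (f : Basis (Fin s ⊕ Fin r) T.W.K (T.W.H X)) (cod : Fin s → ℕ),
  (∀ i, IsHodge T X (cod i) (f (Sum.inl i))) → (∀ a, f (Sum.inr a) ∈ TrA T X) →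
  (∀ i a, T.W.tr X (f (Sum.inl i) * f (Sum.inr a)) = 0) →
  ∀ B : Matrix (Fin r) (Fin r) ℚ,
  (∀ i j, ((B i j : ℚ) : T.W.K) = T.W.tr X (f (Sum.inr i) * f (Sum.inr j))) →
  ∀ (n j : ℕ) (c : T.W.H (pw X n)), IsHodge T (pw X n) j c →
  (∀ g : Matrix (Fin r) (Fin r) ℂ, gᵀ * BC B * g = BC B → g.det = 1 →
    MInv (fun I => algebraMap T.W.K ℂ (T.W.tr (pw X n) (c * wb f n I)))
      (Matrix.fromBlocks (1 : Matrix (Fin s) (Fin s) ℂ) 0 0 g)) ∧
  ∀ u v : Fin r → ℂ,
    LInv (fun I => algebraMap T.W.K ℂ (T.W.tr (pw X n) (c * wb f n I)))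
      (Matrix.fromBlocks (0 : Matrix (Fin s) (Fin s) ℂ) 0 0 (wo B u v))

/-- JOB RTD (converse of DRT; compare `V5helper82/GK/DRT.lean`). If all the values on the de Rham vectors are in `F` then
`c` is a de Rham-Betti class.

Proof. Let `y_J = v_(J 0) × … × v_(J n) = ∑_I (∏_k (2πi)^(cod (I k)) P(I k, J k)) f_I`, `f_I = wb f n I`; `y_J` is in
`D.dR (pw X n)` (see DRT). As the `f_I` are a basis and `det P ≠ 0` the `y_J` span `ℂ ⊗ H(X^(n+1))`, so
`x = twist j c = ∑ γ_J y_J` with `γ_J ∈ ℂ`. Let `δ = dim X^(n+1)`. `baseTr (y_J y_K) = (2πi)^δ G_JK` with `G_JK ∈ F`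
(`D.form.mul`, `D.form.tr`), and `baseTr (x y_K) = (2πi)^δ ρ_K` with `ρ_K ∈ F` by the hypothesis (only the `I` with
`j + ∑ cod (I k) = δ` contribute, see DRT). The matrix `G` is invertible: `y` is a basis and the trace form is
nondegenerate (`W.trace_nondeg` or the like in H914, after base change to `ℂ`; or compute
`G = (2πi)^(-δ) Nᵀ (tr(f_I f_J)) N` with `N` invertible). So `γ = G⁻¹ ρ` has entries in `F` (`F` is a field:
`Matrix.inv_def`, `adjugate`, or solve over `F` by `Matrix.map`), and `x = ∑ γ_J y_J ∈ D.dR` by `D.form.smul`,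
`D.form.add`. -/
def S_RTD : Prop := ∀ {k : Type u} [Field k] {𝒱 : VarClass k} {ops : CycleOps 𝒱}
  (W : WeilCohomology.{u, 0} ops) [Algebra W.K ℂ] (F : Subfield ℂ) (D : DeRham W F) (X : 𝒱.Obj)
  {κ : Type} [Fintype κ] [DecidableEq κ] (f : Basis κ W.K (W.H X)) (cod : κ → ℕ),
  (∀ i, f i ∈ W.gr X (2 * cod i)) → ∀ P : Matrix κ κ ℂ, P.det ≠ 0 →
  (∀ l, ∑ i, tm (twoPiI ^ cod i * P i l) (f i) ∈ D.dR X) →
  ∀ (n j : ℕ) (c : W.H (pw X n)), c ∈ W.gr (pw X n) (2 * j) →
  (∀ J : Fin (n + 1) → κ,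
    ∑ I : Fin (n + 1) → κ, algebraMap W.K ℂ (W.tr (pw X n) (c * wb f n I)) * ∏ l, P (I l) (J l) ∈
      F) →
  IsDRB D (pw X n) j c

/-- JOB ALG (pure). A form invariant under `SO(B)` has algebraic values on the columns of `P` if `Pᵀ B P` is algebraic.

Proof. Let `z` be the value. It is enough that `σ z = z` for all field automorphisms `σ` of `ℂ` which fix all algebraic
numbers (if `z` were transcendental there would be `σ` with `σ z = z + 1`: `z` and `z + 1` are each part of a transcendence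
basis of `ℂ` over the field of algebraic numbers; compare `Pool.Agent.W437.HD` and the fixed field lemmas of the library;
alternatively `algebraicClosure ℚ ℂ` is algebraically closed and one can argue with any `ℚ̄`-linear map `ℂ → ℚ̄`, or see
below). `g = σ(P) P⁻¹` satisfies `gᵀ B g = P⁻ᵀ σ(Pᵀ B P) P⁻¹ = B`, and `det P` is algebraic since
`det(P)² det B = det(Pᵀ B P)`, so `det g = 1`. As `t` and the block `1` are rational, `σ z` is the value of `t` on the
columns of `1 ⊕ g P`, which is `z` by invariance.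
Alternative without automorphisms: over the algebraically closed field `ℚ̄` the symmetric matrices `B` and
`A = Pᵀ B P` are congruent, `A = Qᵀ B Q` with `Q` over `ℚ̄`, and `det Q = det P` after changing `Q` by a reflection; then
`g = P Q⁻¹ ∈ SO(B)` and the value on the columns of `P = g Q` is the value on the columns of `Q`, which is algebraic. -/
def S_ALG : Prop := ∀ {r s m : ℕ} (B : Matrix (Fin r) (Fin r) ℚ), (∀ i j, B i j = B j i) →
  B.det ≠ 0 → ∀ P : Matrix (Fin r) (Fin r) ℂ, P.det ≠ 0 →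
  (∀ i j, IsAlgebraic ℚ ((Pᵀ * BC B * P) i j)) →
  ∀ t : (Fin m → Fin s ⊕ Fin r) → ℚ,
  (∀ g : Matrix (Fin r) (Fin r) ℂ, gᵀ * BC B * g = BC B → g.det = 1 →
    MInv (fun I => (t I : ℂ)) (Matrix.fromBlocks (1 : Matrix (Fin s) (Fin s) ℂ) 0 0 g)) →
  ∀ J : Fin m → Fin s ⊕ Fin r, IsAlgebraic ℚ (∑ I : Fin m → Fin s ⊕ Fin r, (t I : ℂ) *
    ∏ l, (Matrix.fromBlocks (1 : Matrix (Fin s) (Fin s) ℂ) 0 0 P) (I l) (J l))

/-- JOB IRS (pure linear algebra). If all de Rham-Betti forms are killed by the Lie algebra of `SO(B)` and the Hodge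
endomorphisms are scalars then `lie Y.D` acts irreducibly.

Proof. (a) `r ≥ 3`: `ω` and `cj ω` are linearly independent (`iso`, `pos`), so `r ≥ 2`. If `r = 2` then the rational
matrix `x = B⁻¹ [[0, 1], [-1, 0]]` (or its adjugate version, `B.det ≠ 0`: `V5helper10.DRB.det_ne` in
`V5helper10/DRB/All.lean`) is skew for `B`, so `bil B (x ω) ω = 0`, hence `x ω` is a multiple of `ω` (`ω` is isotropic and
`r = 2`), the orthogonal complement of `ω`, `cj ω` is zero, so `HodgeEnd x`, but `x` is not a scalar.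
(b) For rational `u`, `v` the rational matrix `x = wo Y.B u v` is in `lie Y.D` (`LInv` is exactly this, sums over `ℚ` cast to
`ℂ`). Let `M ≠ 0` be stable, `0 ≠ m ∈ M`. By linearity of `(u, v) ↦ wo u v m` the vectors `B(v, m) u - B(u, m) v` are in
`M` for all complex `u`, `v` (the rational vectors span). Choose `v` with `B(v, m) ≠ 0` (`B` nondegenerate): so `u ∈ M` for
all `u` with `B(u, m) = 0`. As `r ≥ 3` there is `m' ∈ M` with `B(m', m) = 0` not proportional to `m`; in the same way all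
`u` with `B(u, m') = 0` are in `M`, and `m^⊥ + m'^⊥` is everything. -/
def S_IRS : Prop := ∀ {r : ℕ} (Y : K3Type r),
  (∀ Q, Y.HodgeEnd Q → ∃ c : ℚ, Q = c • (1 : Matrix (Fin r) (Fin r) ℚ)) →
  (∀ (m : ℕ) (t : (Fin m → Fin r) → ℚ),
    (∀ J : Fin m → Fin r, IsAlgebraic ℚ (∑ I : Fin m → Fin r, (t I : ℂ) * ∏ j, Y.D (I j) (J j))) →
    ∀ u v : Fin r → ℂ, LInv (fun I => (t I : ℂ)) (wo Y.B u v)) →
  ActsIrreducibly Y.D

/-- JOB CLS (classes with given values). For every rational form `t` on the part `inr` there is a class of degree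
`2 (n + 1)` on `X^(n+1)` with the values `t` on the `inr` and `0` otherwise.

Proof. `c = ∑_J a(J) wb f n (inr ∘ J)`, `a(J) = ∑_I (∏ B⁻¹(J k, I k)) t(I)`. All `f i` are of even degree, so
`tr(wb f n J * wb f n I) = ∏ tr(f_(J k) f_(I k))` (`tr_wb` in `V5helper44/KSC/Main2.lean`, even classes are in `PH W X 0`). The
degree of `wb f n (inr ∘ J)` is `2 (n + 1)` (induction with `wb_succ`, see DRT or BACK). -/
def S_CLS : Prop := ∀ {k : Type u} [Field k] {𝒱 : VarClass k} {ops : CycleOps 𝒱}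
  (W : WeilCohomology.{u, 0} ops) (X : 𝒱.Obj)
  {r s : ℕ} (f : Basis (Fin s ⊕ Fin r) W.K (W.H X)) (B : Matrix (Fin r) (Fin r) ℚ),
  (∀ a, f (Sum.inr a) ∈ W.gr X 2) → (∀ i, ∃ p, f (Sum.inl i) ∈ W.gr X (2 * p)) →
  (∀ i a, W.tr X (f (Sum.inl i) * f (Sum.inr a)) = 0) →
  (∀ i j, ((B i j : ℚ) : W.K) = W.tr X (f (Sum.inr i) * f (Sum.inr j))) → B.det ≠ 0 →
  ∀ (n : ℕ) (t : (Fin (n + 1) → Fin r) → ℚ), ∃ c ∈ W.gr (pw X n) (2 * (n + 1)),
    (∀ J : Fin (n + 1) → Fin r,
      W.tr (pw X n) (c * wb f n (fun l => Sum.inr (J l))) = ((t J : ℚ) : W.K)) ∧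
    ∀ (I : Fin (n + 1) → Fin s ⊕ Fin r) (l : Fin (n + 1)) (i : Fin s), I l = Sum.inl i →
      W.tr (pw X n) (c * wb f n I) = 0

end Pool.Agent.V5helper10.GK
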